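import Pool.Agent.Helper57K1.FS.H

/-!
# Iterated joins and free sums of planar compact sets
-/

set_option autoImplicit false

namespace Pool.Agent.Helper57K1.FS

open MeasureTheory Set Filter Topology
open scoped ENNReal NNReal
open Pool.Agent.Y513.LPM (E Z mahlerLp supportLp)
open Pool.Agent.Helper57K1.LM
open Pool.Agent.Helper98.JN (lsp)

variable {n : ℕ} {p : ℝ}

/-- `JoinSum n d S`: the set `S ⊆ ℝ^n` is a union of points and of compact subsets of planes, and
`conv S` is built from these pieces by joins and free sums; `d` counts the dimension: it is `0` for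
a point, `2` for a planar piece, `d + d' + 1` for a join and `d + d'` for a free sum, that is, for
two sets whose convex hulls have a common point. -/
inductive JoinSum (n : ℕ) : ℕ → Set (E n) → Prop
  | point (x : E n) : JoinSum n 0 {x}
  | planar {S : Set (E n)} (P : AffineSubspace ℝ (E n))
      (hP : Module.finrank ℝ P.direction ≤ 2) (hSP : S ⊆ P) (hS : IsCompact S) : JoinSum n 2 S
  | join {d d' : ℕ} {S S' : Set (E n)} (h : JoinSum n d S)
      (h' : JoinSum n d' S') : JoinSum n (d + d' + 1) (S ∪ S')
  | sum {d d' : ℕ} {S S' : Set (E n)} (h : JoinSum n d S)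
      (h' : JoinSum n d' S') (hSS' : (convexHull ℝ S ∩ convexHull ℝ S').Nonempty) :
      JoinSum n (d + d') (S ∪ S')

/-- the lifted span of a subset of an affine subspace -/
lemma fr_affine {S : Set (E n)}
    {D : Submodule ℝ (E n)} {d : ℕ} (hD : Module.finrank ℝ D ≤ d)
    {o : E n} (hS : ∀ x ∈ S, x - o ∈ D) :
    Module.finrank ℝ (lsp S) ≤ d + 1 := by
  have h1 : lsp S ≤
      D.map (LinearMap.inl ℝ (E n) ℝ) ⊔ Submodule.span ℝ {(o, (1 : ℝ))} := by
    rw [Submodule.span_le]
    rintro _ ⟨x, hx, rfl⟩
    have h2 : (x, (1 : ℝ)) = LinearMap.inl ℝ (E n) ℝ (x - o) +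
        (o, (1 : ℝ)) := by
      ext1
      · simp
      · simp
    dsimp only
    rw [h2]
    exact Submodule.add_mem _ (Submodule.mem_sup_left (Submodule.mem_map_of_mem (hS x hx)))
      (Submodule.mem_sup_right (Submodule.mem_span_singleton_self _))
  have h2 := Submodule.finrank_mono h1
  have h3 := Submodule.finrank_add_le_finrank_add_finrank
    (D.map (LinearMap.inl ℝ (E n) ℝ)) (Submodule.span ℝ {(o, (1 : ℝ))})
  have h4 := Submodule.finrank_map_le (LinearMap.inl ℝ (E n) ℝ) D
  have h5 : Module.finrank ℝ (Submodule.span ℝ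
      {((o, (1 : ℝ)) : E n × ℝ)}) ≤ 1 := by
    have := finrank_span_le_card (R := ℝ) ({((o, (1 : ℝ)) : E n × ℝ)} :
      Set (E n × ℝ))
    simpa using this
  refine h2.trans (h3.trans ?_)
  exact Nat.add_le_add (h4.trans hD) h5

lemma lsp_empty : lsp (∅ : Set (E n)) = ⊥ := by
  unfold lsp
  rw [image_empty, Submodule.span_empty]

lemma fr_planar2 {S : Set (E n)}
    {P : AffineSubspace ℝ (E n)} (hP : Module.finrank ℝ P.direction ≤ 2)
    (hSP : S ⊆ P) : Module.finrank ℝ (lsp S) ≤ 3 := by
  rcases S.eq_empty_or_nonempty with h | ⟨x, hx⟩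
  · rw [h, lsp_empty, finrank_bot]
    exact Nat.zero_le _
  · exact fr_affine hP (o := x) fun y hy => AffineSubspace.vsub_mem_direction (hSP hy) (hSP hx)

lemma fr_point (x : E n) :
    Module.finrank ℝ (lsp ({x} : Set (E n))) = 1 := by
  unfold lsp
  rw [Set.image_singleton]
  refine finrank_span_singleton ?_
  intro h
  exact one_ne_zero (congrArg Prod.snd h : (1 : ℝ) = 0)

/-- the inequality for the ranks -/
lemma rank_le {d : ℕ} {S : Set (E n)} (h : JoinSum n d S) :
    Module.finrank ℝ (lsp S) ≤ d + 1 := by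
  induction h with
  | point x => exact (fr_point x).le
  | planar P hP hSP hS => exact fr_planar2 hP hSP
  | @join d d' S S' h h' ih ih' =>
    have := fr_sup_inf S S'
    omega
  | @sum d d' S S' h h' hSS' ih ih' =>
    obtain ⟨o, ho, ho'⟩ := hSS'
    have := fr_step (mem_lsp ho) (mem_lsp ho') ih'
    omega

/-- finite sets -/
lemma red_of_joinSum (hF : RedFew n) (hPL : RedPlanar n) {d : ℕ}
    {S : Set (E n)} (h : JoinSum n d S) :
    ∀ F : Finset (E n), (F : Set (E n)) = S →
      Module.finrank ℝ (lsp (F : Set (E n))) = d + 1 → Red F := by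
  classical
  -- the finite parts of a union
  have split : ∀ (F : Finset (E n)) (A B : Set (E n)),
      (F : Set (E n)) = A ∪ B →
      ∃ F₁ F₂ : Finset (E n), (F₁ : Set (E n)) = A ∧
        (F₂ : Set (E n)) = B ∧ F = F₁ ∪ F₂ := by
    intro F A B h
    have hA : A.Finite := F.finite_toSet.subset (by rw [h]; exact Set.subset_union_left)
    have hB : B.Finite := F.finite_toSet.subset (by rw [h]; exact Set.subset_union_right)
    refine ⟨hA.toFinset, hB.toFinset, by simp, by simp, ?_⟩
    rw [← Finset.coe_inj, h]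
    simp
  induction h with
  | point x =>
    intro F hFx _
    have h1 : F = {x} := by
      rw [← Finset.coe_inj, hFx, Finset.coe_singleton]
    subst h1
    refine Red.base ?_
    rw [Finset.coe_singleton, fr_point, Finset.card_singleton]
  | planar P hP hSP hS =>
    intro F hFS _
    rw [← hFS] at hSP
    exact hPL F (fr_planar2 hP hSP)
  | @join d d' S S' h h' ih ih' =>
    intro F hFS hfr
    obtain ⟨F₁, F₂, h1, h2, rfl⟩ := split F S S' hFS
    have r1 := rank_le h
    have r2 := rank_le h'
    rw [← h1] at r1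
    rw [← h2] at r2
    rw [Finset.coe_union] at hfr
    have h3 := fr_sup_inf (F₁ : Set (E n))
      (F₂ : Set (E n))
    have h4 : Module.finrank ℝ (lsp (F₁ : Set (E n)) ⊓
        lsp (F₂ : Set (E n)) :
        Submodule ℝ (E n × ℝ)) = 0 := by omega
    have hne : ∀ G : Finset (E n),
        0 < Module.finrank ℝ (lsp (G : Set (E n))) → G.Nonempty := by
      intro G hG
      rw [Finset.nonempty_iff_ne_empty]
      rintro rfl
      rw [Finset.coe_empty, lsp_empty, finrank_bot] at hG
      exact lt_irrefl _ hG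
    exact red_join hF (ih F₁ h1 (by omega)) (ih' F₂ h2 (by omega)) (hne F₁ (by omega))
      (hne F₂ (by omega)) (Submodule.finrank_eq_zero.1 h4)
  | @sum d d' S S' h h' hSS' ih ih' =>
    intro F hFS hfr
    obtain ⟨F₁, F₂, h1, h2, rfl⟩ := split F S S' hFS
    obtain ⟨o, ho, ho'⟩ := hSS'
    have r1 := rank_le h
    have r2 := rank_le h'
    rw [← h1] at r1 ho
    rw [← h2] at r2 ho'
    rw [Finset.coe_union] at hfr
    have h3 := fr_sup_inf (F₁ : Set (E n))
      (F₂ : Set (E n))
    have h5 : Submodule.span ℝ {((o, (1 : ℝ)) : E n × ℝ)} ≤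
        lsp (F₁ : Set (E n)) ⊓
        lsp (F₂ : Set (E n)) := by
      rw [Submodule.span_singleton_le_iff_mem]
      exact Submodule.mem_inf.2 ⟨mem_lsp ho, mem_lsp ho'⟩
    have h6 : Module.finrank ℝ
        (Submodule.span ℝ {((o, (1 : ℝ)) : E n × ℝ)}) = 1 := by
      refine finrank_span_singleton ?_
      intro h
      exact one_ne_zero (congrArg Prod.snd h : (1 : ℝ) = 0)
    have h7 := Submodule.finrank_mono h5
    have h8 : Module.finrank ℝ (lsp (F₁ : Set (E n)) ⊓
        lsp (F₂ : Set (E n)) :
        Submodule ℝ (E n × ℝ)) ≤ 1 := by omega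
    have h9 := Submodule.eq_of_le_of_finrank_le h5 (by rw [h6]; exact h8)
    exact red_sum hF (ih F₁ h1 (by omega)) (ih' F₂ h2 (by omega)) ho ho' h9.ge

/-- finite parts -/
lemma joinSum_core {d : ℕ} {S : Set (E n)} (h : JoinSum n d S) :
    IsCompact S ∧
      ∃ t : Finset (E n), (t : Set (E n)) ⊆ S ∧
        ∀ F : Finset (E n), t ⊆ F →
          (F : Set (E n)) ⊆ S →
          JoinSum n d (F : Set (E n)) := by
  classical
  have split : ∀ (F : Finset (E n)) (A B : Set (E n)),
      (F : Set (E n)) ⊆ A ∪ B →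
      (F : Set (E n)) =
        (F.filter (· ∈ A) : Set (E n)) ∪
        (F.filter (· ∈ B) : Set (E n)) := by
    intro F A B h
    rw [← Finset.coe_union]
    congr 1
    ext x
    rw [Finset.mem_union, Finset.mem_filter, Finset.mem_filter]
    constructor
    · intro hx
      rcases h hx with h' | h'
      · exact Or.inl ⟨hx, h'⟩
      · exact Or.inr ⟨hx, h'⟩
    · rintro (h' | h')
      · exact h'.1
      · exact h'.1
  have hsub : ∀ (F : Finset (E n)) (A : Set (E n)),
      (F.filter (· ∈ A) : Set (E n)) ⊆ A := by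
    intro F A x hx
    exact (Finset.mem_filter.1 hx).2
  have hmem : ∀ (F t : Finset (E n))
      (A : Set (E n)), t ⊆ F →
      (t : Set (E n)) ⊆ A → t ⊆ F.filter (· ∈ A) := by
    intro F t A h h' x hx
    exact Finset.mem_filter.2 ⟨h hx, h' hx⟩
  induction h with
  | point x =>
    refine ⟨isCompact_singleton, {x}, by simp, fun F h1 h2 => ?_⟩
    have h3 : (F : Set (E n)) = {x} := by
      apply Set.Subset.antisymm h2
      intro y hy
      have : y = x := hy
      rw [this]
      exact h1 (Finset.mem_singleton_self x)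
    rw [h3]
    exact JoinSum.point x
  | planar P hP hSP hS =>
    exact ⟨hS, ∅, by simp, fun F _ h2 =>
      JoinSum.planar P hP (h2.trans hSP) F.finite_toSet.isCompact⟩
  | @join d d' S S' h h' ih ih' =>
    obtain ⟨hc, t, ht, hF⟩ := ih
    obtain ⟨hc', t', ht', hF'⟩ := ih'
    refine ⟨hc.union hc', t ∪ t', ?_, fun F h1 h2 => ?_⟩
    · rw [Finset.coe_union]; exact Set.union_subset_union ht ht'
    · rw [split F S S' h2]
      exact JoinSum.join
        (hF _ (hmem F t S (Finset.subset_union_left.trans h1) ht) (hsub F S))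
        (hF' _ (hmem F t' S' (Finset.subset_union_right.trans h1) ht') (hsub F S'))
  | @sum d d' S S' h h' hSS' ih ih' =>
    obtain ⟨hc, t, ht, hF⟩ := ih
    obtain ⟨hc', t', ht', hF'⟩ := ih'
    obtain ⟨o, ho, ho'⟩ := hSS'
    rw [convexHull_eq_union_convexHull_finite_subsets] at ho ho'
    obtain ⟨u, hu, hou⟩ := Set.mem_iUnion₂.1 ho
    obtain ⟨u', hu', hou'⟩ := Set.mem_iUnion₂.1 ho'
    refine ⟨hc.union hc', (t ∪ u) ∪ (t' ∪ u'), ?_, fun F h1 h2 => ?_⟩
    · push_cast
      exact Set.union_subset_union (Set.union_subset ht hu) (Set.union_subset ht' hu')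
    · have m1 : t ∪ u ⊆ F := Finset.subset_union_left.trans h1
      have m2 : t' ∪ u' ⊆ F := Finset.subset_union_right.trans h1
      rw [split F S S' h2]
      refine JoinSum.sum
        (hF _ (hmem F t S (Finset.subset_union_left.trans m1) ht) (hsub F S))
        (hF' _ (hmem F t' S' (Finset.subset_union_left.trans m2) ht') (hsub F S')) ⟨o, ?_, ?_⟩
      · refine convexHull_mono ?_ hou
        exact_mod_cast hmem F u S (Finset.subset_union_right.trans m1) hu
      · refine convexHull_mono ?_ hou'
        exact_mod_cast hmem F u' S' (Finset.subset_union_right.trans m2) hu'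

/-- **the inequality for iterated joins and free sums** -/
theorem ineq (hp : 0 < p) (hF : RedFew n) (hPL : RedPlanar n) {d : ℕ} {S : Set (E n)}
    (hS : JoinSum n d S) (hd : d ≤ n) (hK : (interior (convexHull ℝ S)).Nonempty) :
    minS p n ≤ mahlerLp p (convexHull ℝ S) := by
  classical
  obtain ⟨hc, t, ht, hcore⟩ := joinSum_core hS
  have e1 : (⋃ _ : Fin 1, S) ∪ (t : Set (E n)) = S := by
    rw [Set.iUnion_const, Set.union_eq_self_of_subset_right ht]
  have h := Pool.Agent.Helper98.JN.compact_of_finite hp (k := 1) (fun _ => S) (fun _ => hc) t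
    (fun F hF' hint z => by
      have e3 : (⋃ i, (F i : Set (E n))) = (F 0 : Set (E n)) := by
        apply Set.Subset.antisymm
        · refine Set.iUnion_subset fun i => ?_
          rw [Subsingleton.elim i 0]
        · exact Set.subset_iUnion (fun i => (F i : Set (E n))) 0
      have e2 : (⋃ i, (F i : Set (E n))) ∪ (t : Set (E n)) =
          ((F 0 ∪ t : Finset (E n)) : Set (E n)) := by
        rw [Finset.coe_union, e3]
      rw [e2] at hint ⊢
      have hb : JoinSum n d ((F 0 ∪ t : Finset _) : Set (E n)) := by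
        refine hcore _ Finset.subset_union_right ?_
        rw [Finset.coe_union]
        exact Set.union_subset (hF' 0) ht
      have hfr : Module.finrank ℝ (lsp ((F 0 ∪ t : Finset _) : Set (E n))) = d + 1 := by
        have h1 := rank_le hb
        have h2 : lsp ((F 0 ∪ t : Finset _) : Set (E n)) = ⊤ := span_top hint
        rw [h2] at h1 ⊢
        have h3 : Module.finrank ℝ (⊤ : Submodule ℝ (E n × ℝ)) = n + 1 := by
          rw [finrank_top]; simp
        omega
      exact (red_of_joinSum hF hPL hb _ rfl hfr).ok hp hint z) (by rw [e1]; exact hK) 0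
  rw [e1] at h
  have h2 : (fun x : E n => x - 0) '' convexHull ℝ S = convexHull ℝ S := by
    simp
  rw [h2] at h
  exact h

end Pool.Agent.Helper57K1.FS
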