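import Pool.Agent.Helper57K1.FS.B

/-!
# Chord preserving moves of a free summand: `MarkedMove`
-/

set_option autoImplicit false

namespace Pool.Agent.Helper57K1.FS

open MeasureTheory Set Filter Topology
open scoped ENNReal NNReal
open Pool.Agent.Y513.LPM (E Z mahlerLp supportLp)
open Pool.Agent.Helper57K1.LM
open Pool.Agent.Helper98.JN (lsp)

variable {n : ℕ} {p : ℝ}

/-- the directions of a set -/
abbrev dir (o : E n) (X : Set (E n)) : Submodule ℝ (E n) :=
  Submodule.span ℝ ((fun x : E n => x - o) '' X)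

lemma dir_le {o : E n} {X : Set (E n)} (ho : (o, (1 : ℝ)) ∈ lsp X) :
    (dir o X).map (LinearMap.inl ℝ (E n) ℝ) ⊔ Submodule.span ℝ {(o, (1 : ℝ))} ≤ lsp X := by
  refine sup_le ?_ ?_
  · rw [Submodule.map_span_le]
    rintro _ ⟨x, hx, rfl⟩
    have h1 : LinearMap.inl ℝ (E n) ℝ (x - o) = (x, (1 : ℝ)) - (o, (1 : ℝ)) := by
      ext1 <;> simp
    rw [h1]
    exact Submodule.sub_mem _ (Submodule.subset_span ⟨x, hx, rfl⟩) ho
  · rw [Submodule.span_singleton_le_iff_mem]
    exact ho

lemma finrank_dir {o : E n} {X : Set (E n)} (ho : (o, (1 : ℝ)) ∈ lsp X) :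
    Module.finrank ℝ (dir o X) + 1 ≤ Module.finrank ℝ (lsp X) := by
  have h1 := Submodule.finrank_mono (dir_le ho)
  have h2 := Submodule.finrank_sup_add_finrank_inf_eq
    ((dir o X).map (LinearMap.inl ℝ (E n) ℝ)) (Submodule.span ℝ {((o, (1 : ℝ)) : E n × ℝ)})
  have h3 : (dir o X).map (LinearMap.inl ℝ (E n) ℝ) ⊓
      Submodule.span ℝ {((o, (1 : ℝ)) : E n × ℝ)} = ⊥ := by
    rw [eq_bot_iff]
    rintro y ⟨⟨u, -, hu⟩, hy⟩
    obtain ⟨c, hc⟩ := Submodule.mem_span_singleton.1 hy
    have h4 : y.2 = 0 := by rw [← hu]; rfl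
    have h5 : y.2 = c := by rw [← hc]; simp
    rw [Submodule.mem_bot, ← hc, ← h5, h4, zero_smul]
  have h4 : Module.finrank ℝ (Submodule.span ℝ {((o, (1 : ℝ)) : E n × ℝ)}) = 1 := by
    refine finrank_span_singleton ?_
    intro h
    have : (1 : ℝ) = 0 := congrArg Prod.snd h
    exact one_ne_zero this
  have h5 : Module.finrank ℝ ((dir o X).map (LinearMap.inl ℝ (E n) ℝ)) =
      Module.finrank ℝ (dir o X) :=
    (Submodule.equivMapOfInjective (LinearMap.inl ℝ (E n) ℝ) LinearMap.inl_injective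
      (dir o X)).finrank_eq.symm
  rw [h3, finrank_bot] at h2
  omega

/-- the two direction spaces are complementary -/
lemma compl {o : E n} {C R : Set (E n)} (ho : (o, (1 : ℝ)) ∈ lsp C) (ho' : (o, (1 : ℝ)) ∈ lsp R)
    {r : ℕ} (hC : Module.finrank ℝ (lsp C) ≤ r) (hR : Module.finrank ℝ (lsp R) + r ≤ n + 2)
    (hint : (interior (convexHull ℝ (C ∪ R))).Nonempty) : IsCompl (dir o C) (dir o R) := by
  have h1 := finrank_dir ho
  have h2 := finrank_dir ho'
  have htop : dir o C ⊔ dir o R = ⊤ := by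
    have h3 := span_top hint
    have h4 : Submodule.span ℝ ((fun x : E n => (x, (1 : ℝ))) '' (C ∪ R)) ≤
        (dir o C ⊔ dir o R).map (LinearMap.inl ℝ (E n) ℝ) ⊔
          Submodule.span ℝ {(o, (1 : ℝ))} := by
      rw [Submodule.span_le]
      rintro _ ⟨x, hx, rfl⟩
      have h5 : (x, (1 : ℝ)) = LinearMap.inl ℝ (E n) ℝ (x - o) + (o, (1 : ℝ)) := by
        ext1 <;> simp
      dsimp only
      rw [h5]
      refine Submodule.add_mem _ (Submodule.mem_sup_left (Submodule.mem_map_of_mem ?_))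
        (Submodule.mem_sup_right (Submodule.mem_span_singleton_self _))
      rcases hx with hx | hx
      · exact Submodule.mem_sup_left (Submodule.subset_span ⟨x, hx, rfl⟩)
      · exact Submodule.mem_sup_right (Submodule.subset_span ⟨x, hx, rfl⟩)
    rw [h3] at h4
    rw [eq_top_iff]
    intro y _
    obtain ⟨u, ⟨a, ha, rfl⟩, w, hw, huw⟩ := Submodule.mem_sup.1
      (h4 (show ((y, (0 : ℝ)) : E n × ℝ) ∈ ⊤ from trivial))
    obtain ⟨c, rfl⟩ := Submodule.mem_span_singleton.1 hw
    have h6 : c = 0 := by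
      have := congrArg Prod.snd huw
      simpa using this
    have h7 : a = y := by
      have := congrArg Prod.fst huw
      rw [h6] at this
      simpa using this
    rw [← h7]; exact ha
  have h3 := Submodule.finrank_sup_add_finrank_inf_eq (dir o C) (dir o R)
  rw [htop, finrank_top, finrank_euclideanSpace_fin] at h3
  refine ⟨?_, codisjoint_iff.2 htop⟩
  rw [disjoint_iff]
  apply Submodule.finrank_eq_zero.1
  omega

/-- **(P)**: chord preserving moves of a free summand -/
theorem marked_move (hp : 0 < p) : MarkedMove p n := by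
  intro C hCc hC o ho r hCr R hoR hR β hβ a b ha hb hab hinv t₀ t₁ h0 h1 hc₀ hc₁ ho₀ ho₁ hm₀ hm₁
    hint z
  set v : E n := b - a with hv
  have hoC : (o, (1 : ℝ)) ∈ lsp C := Submodule.subset_span ⟨o, ho, rfl⟩
  have hcompl := compl hoC hoR hCr hR hint
  set π : E n →ₗ[ℝ] E n := (dir o C).projection (dir o R) hcompl with hπ
  have hCdir : ∀ c ∈ C, c - o ∈ dir o C := fun c hc => Submodule.subset_span ⟨c, hc, rfl⟩
  have hCπ : ∀ c ∈ C, π (c - o) = c - o := fun c hc =>
    Submodule.projection_apply_of_mem_left hcompl (hCdir c hc)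
  have hRπ : ∀ x ∈ R, π (x - o) = 0 := fun x hx =>
    (Submodule.projection_apply_eq_zero_iff hcompl).2 (Submodule.subset_span ⟨x, hx, rfl⟩)
  have hvπ : π v = v := by
    apply Submodule.projection_apply_of_mem_left hcompl
    have h2 : v = (b - o) - (a - o) := by rw [hv]; abel
    rw [h2]
    exact Submodule.sub_mem _ (hCdir b hb) (hCdir a ha)
  have hRne : R.Nonempty := by
    rw [Finset.nonempty_iff_ne_empty]
    rintro rfl
    have h2 : (o, (1 : ℝ)) ∈ (⊥ : Submodule ℝ (E n × ℝ)) := by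
      have h3 : lsp ((∅ : Finset (E n)) : Set (E n)) = ⊥ := by
        unfold lsp; simp
      rwa [h3] at hoR
    have h3 : (1 : ℝ) = 0 := congrArg Prod.snd ((Submodule.mem_bot ℝ).1 h2)
    exact one_ne_zero h3
  have e₀ := shear_hull (β := β) hRne hRπ hC ho hCπ hvπ hc₀ ho₀
  have e₁ := shear_hull (β := β) hRne hRπ hC ho hCπ hvπ hc₁ ho₁
  have hKc : IsCompact (convexHull ℝ (C ∪ R)) :=
    Pool.Agent.H73R3.compact_hull (hCc.union R.finite_toSet.isCompact)
  refine movingOn hp hKc (convex_convexHull ℝ _) hint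
    (bigβ_cont hRne hRπ hCc hC ho hCπ hβ) hab
    (fun x _ s _ => bigβ_inv hvπ hinv x s) h0 h1 ?_ ?_ ?_ ?_ z
  · rw [e₀]; exact convex_convexHull ℝ _
  · rw [e₁]; exact convex_convexHull ℝ _
  · rw [e₀]; exact hm₀
  · rw [e₁]; exact hm₁

end Pool.Agent.Helper57K1.FS
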