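import Pool.Agent.Helper57K1.FS.Def

/-!
# Chord preserving moves with a shear that is only continuous on the body
-/

set_option autoImplicit false

namespace Pool.Agent.Helper57K1.FS

open MeasureTheory Set Filter Topology
open scoped ENNReal NNReal
open Pool.Agent.Y513.LPM (E Z mahlerLp supportLp)
open Pool.Agent.Helper57K1.LM
open Pool.Agent.Helper98.JN (lsp)

variable {n : ℕ} {p : ℝ}

/-- extension of a function that is constant along a direction -/
lemma exists_extension {K : Set (E n)} (hK : IsCompact K) {v : E n} (hv : v ≠ 0) {β : E n → ℝ}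
    (hβ : ContinuousOn β K) (hinv : ∀ x ∈ K, ∀ s : ℝ, x + s • v ∈ K → β (x + s • v) = β x) :
    ∃ β' : E n → ℝ, Continuous β' ∧ (∀ (x : E n) (s : ℝ), β' (x + s • v) = β' x) ∧
      EqOn β' β K := by
  set P : E n → E n := fun x => x - (inner ℝ v x / ‖v‖ ^ 2) • v with hP
  have hPc : Continuous P := by fun_prop
  have hv2 : ‖v‖ ^ 2 ≠ 0 := pow_ne_zero 2 (norm_ne_zero_iff.2 hv)
  have hPs : ∀ (x : E n) (s : ℝ), P (x + s • v) = P x := by
    intro x s
    simp only [hP]
    rw [inner_add_right, inner_smul_right, real_inner_self_eq_norm_sq, add_div,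
      mul_div_assoc, div_self hv2]
    module
  have hPe : ∀ x y : E n, P x = P y → ∃ s : ℝ, y = x + s • v := by
    intro x y h
    refine ⟨inner ℝ v y / ‖v‖ ^ 2 - inner ℝ v x / ‖v‖ ^ 2, ?_⟩
    simp only [hP] at h
    have h1 : y = (y - (inner ℝ v y / ‖v‖ ^ 2) • v) + (inner ℝ v y / ‖v‖ ^ 2) • v := by abel
    rw [← h] at h1
    calc y = x - (inner ℝ v x / ‖v‖ ^ 2) • v + (inner ℝ v y / ‖v‖ ^ 2) • v := h1
      _ = _ := by rw [sub_smul]; abel
  set Y : Set (E n) := P '' K with hY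
  have hYc : IsClosed Y := (hK.image hPc).isClosed
  have hch : ∀ y : Y, ∃ x ∈ K, P x = (y : E n) := fun y => y.2
  choose f hfK hfP using hch
  set g : Y → ℝ := fun y => β (f y) with hg
  have hgx : ∀ x (hx : x ∈ K), g ⟨P x, x, hx, rfl⟩ = β x := by
    intro x hx
    simp only [hg]
    have h1 := hfP ⟨P x, x, hx, rfl⟩
    obtain ⟨s, hs⟩ := hPe x (f ⟨P x, x, hx, rfl⟩) h1.symm
    have h2 := hfK ⟨P x, x, hx, rfl⟩
    rw [hs] at h2 ⊢
    exact hinv x hx s h2
  have hgc : Continuous g := by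
    rw [continuous_iff_isClosed]
    intro D hD
    have h1 : IsCompact (K ∩ β ⁻¹' D) :=
      hK.of_isClosed_subset (hβ.preimage_isClosed_of_isClosed hK.isClosed hD) inter_subset_left
    have h2 : IsClosed (P '' (K ∩ β ⁻¹' D)) := (h1.image hPc).isClosed
    have h3 : g ⁻¹' D = Subtype.val ⁻¹' (P '' (K ∩ β ⁻¹' D)) := by
      ext ⟨y, hy⟩
      obtain ⟨x, hx, rfl⟩ := hy
      rw [mem_preimage, hgx x hx, mem_preimage]
      constructor
      · intro h
        exact ⟨x, ⟨hx, h⟩, rfl⟩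
      · rintro ⟨x', ⟨hx', hx'D⟩, hxx⟩
        obtain ⟨s, hs⟩ := hPe x x' hxx.symm
        have h4 : β x' = β x := by
          rw [hs] at hx' ⊢
          exact hinv x hx s hx'
        rw [← h4]; exact hx'D
    rw [h3]
    exact h2.preimage continuous_subtype_val
  obtain ⟨G, hG⟩ := ContinuousMap.exists_restrict_eq hYc (⟨g, hgc⟩ : C(Y, ℝ))
  refine ⟨fun x => G (P x), G.continuous.comp hPc, fun x s => ?_, fun x hx => ?_⟩
  · change G (P (x + s • v)) = G (P x)
    rw [hPs]
  have h1 := congrArg (fun F : C(Y, ℝ) => F ⟨P x, x, hx, rfl⟩) hG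
  have h2 : G (P x) = g ⟨P x, x, hx, rfl⟩ := h1
  change G (P x) = β x
  rw [h2, hgx x hx]

/-- **moving chords**, the shear being continuous on the body only -/
theorem movingOn (hp : 0 < p) {K : Set (E n)} {β : E n → ℝ} (hK : IsCompact K)
    (hKc : Convex ℝ K) (hi : (interior K).Nonempty)
    (hβ : ContinuousOn β K) {v : E n} (hv : v ≠ 0)
    (hinv : ∀ x ∈ K, ∀ s : ℝ, x + s • v ∈ K → β (x + s • v) = β x) {t₀ t₁ : ℝ}
    (h0 : t₀ < 0) (h1 : 0 < t₁) (hc₀ : Convex ℝ (shear β v t₀ '' K))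
    (hc₁ : Convex ℝ (shear β v t₁ '' K)) {m : ℝ≥0∞}
    (hm₀ : (interior (shear β v t₀ '' K)).Nonempty →
      ∀ z : E n, m ≤ mahlerLp p ((fun x => x - z) '' (shear β v t₀ '' K)))
    (hm₁ : (interior (shear β v t₁ '' K)).Nonempty →
      ∀ z : E n, m ≤ mahlerLp p ((fun x => x - z) '' (shear β v t₁ '' K))) (z : E n) :
    m ≤ mahlerLp p ((fun x => x - z) '' K) := by
  obtain ⟨β', hβ', hinv', heq⟩ := exists_extension hK hv hβ hinv
  have hsh : ∀ t : ℝ, shear β v t '' K = shear β' v t '' K := by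
    intro t
    refine image_congr fun x hx => ?_
    unfold shear
    rw [heq hx]
  have hint : ∀ t : ℝ, (interior (shear β' v t '' K)).Nonempty := by
    intro t
    have h2 : interior (shear β' v t '' K) = shear β' v t '' interior K :=
      ((shearH hβ' hinv' t).image_interior K).symm
    rw [h2]
    exact hi.image _
  rw [hsh] at hc₀ hm₀
  rw [hsh] at hc₁ hm₁
  exact moving' hp hK hKc hi hβ' hv hinv' h0 h1 hc₀ hc₁ (hm₀ (hint _)) (hm₁ (hint _)) z

/-! ### the maximal weight of a vertex -/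

section
variable {J : Type} [Fintype J] {w : J → E n} {j₀ : J}

/-- the maximal weight of `w j₀` in the representations of `y` -/
noncomputable def mw (w : J → E n) (j₀ : J) (y : E n) : ℝ :=
  sSup ((fun c : J → ℝ => c j₀) '' {c | c ∈ stdSimplex ℝ J ∧ ∑ j, c j • w j = y})

lemma comb_cont (w : J → E n) : Continuous fun c : J → ℝ => ∑ j, c j • w j := by
  fun_prop

lemma fib_compact (w : J → E n) (y : E n) :
    IsCompact {c | c ∈ stdSimplex ℝ J ∧ ∑ j, c j • w j = y} := by
  refine (isCompact_stdSimplex ℝ J).of_isClosed_subset ?_ (fun c hc => hc.1)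
  exact (isClosed_stdSimplex ℝ J).inter (isClosed_eq (comb_cont w) continuous_const)

lemma le_mw {c : J → ℝ} (hc : c ∈ stdSimplex ℝ J) {y : E n} (hy : ∑ j, c j • w j = y) :
    c j₀ ≤ mw w j₀ y :=
  le_csSup ((fib_compact w y).image (continuous_apply j₀)).bddAbove ⟨c, ⟨hc, hy⟩, rfl⟩

lemma exists_mw {y : E n} (hy : y ∈ convexHull ℝ (range w)) :
    ∃ c ∈ stdSimplex ℝ J, ∑ j, c j • w j = y ∧ c j₀ = mw w j₀ y := by
  obtain ⟨c, hc0, hc1, hc⟩ := (Pool.Agent.Helper57K1.LM.mem_hull w y).1 hy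
  have hne : {c | c ∈ stdSimplex ℝ J ∧ ∑ j, c j • w j = y}.Nonempty := ⟨c, ⟨hc0, hc1⟩, hc⟩
  obtain ⟨d, ⟨hd, hdy⟩, hd0⟩ :=
    ((fib_compact w y).image (continuous_apply j₀)).sSup_mem (hne.image _)
  exact ⟨d, hd, hdy, hd0⟩

lemma mw_cont (w : J → E n) (j₀ : J) : ContinuousOn (mw w j₀) (convexHull ℝ (range w)) := by
  intro x hx
  refine tendsto_of_seq_tendsto fun u hu => ?_
  rw [tendsto_nhdsWithin_iff] at hu
  obtain ⟨hu1, hu2⟩ := hu
  refine tendsto_of_subseq_tendsto fun ns hns => ?_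
  have hex : ∀ k, ∃ c ∈ stdSimplex ℝ J, u (ns k) ∈ convexHull ℝ (range w) →
      (∑ j, c j • w j = u (ns k) ∧ c j₀ = mw w j₀ (u (ns k))) := by
    intro k
    by_cases h : u (ns k) ∈ convexHull ℝ (range w)
    · obtain ⟨c, hc, h1, h2⟩ := exists_mw (j₀ := j₀) h
      exact ⟨c, hc, fun _ => ⟨h1, h2⟩⟩
    · obtain ⟨c, hc, -, -⟩ := exists_mw (j₀ := j₀) hx
      exact ⟨c, hc, fun h' => absurd h' h⟩
  choose c hc hcu using hex
  obtain ⟨a, ha, φ, hφ, hφa⟩ := (isCompact_stdSimplex ℝ J).tendsto_subseq hc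
  refine ⟨φ, ?_⟩
  have hmem : ∀ᶠ k in atTop, u (ns (φ k)) ∈ convexHull ℝ (range w) :=
    (hns.comp hφ.tendsto_atTop).eventually hu2
  have hux : Tendsto (fun k => u (ns (φ k))) atTop (𝓝 x) :=
    hu1.comp (hns.comp hφ.tendsto_atTop)
  have hax : ∑ j, a j • w j = x := by
    refine tendsto_nhds_unique (((comb_cont w).tendsto a).comp hφa) ?_
    refine hux.congr' ?_
    filter_upwards [hmem] with k hk
    exact (hcu _ hk).1.symm
  have hlim : Tendsto (fun k => c (φ k) j₀) atTop (𝓝 (a j₀)) :=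
    ((continuous_apply j₀).tendsto a).comp hφa
  -- the limit is the maximal weight
  have hval : a j₀ = mw w j₀ x := by
    refine le_antisymm (le_mw ha hax) ?_
    by_contra hlt
    push Not at hlt
    obtain ⟨b, hb, hbx, hb0⟩ := exists_mw (j₀ := j₀) hx
    rw [← hb0] at hlt
    -- better representations
    have hev : ∀ᶠ k in atTop, ∀ j, 0 ≤ c (φ k) j + 1 / 2 * (b j - a j) := by
      rw [eventually_all]
      intro j
      rcases (ha.1 j).eq_or_lt with h | h
      · refine Eventually.of_forall fun k => ?_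
        rw [← h]
        have h1 := (hc (φ k)).1 j
        have h2 := hb.1 j
        linarith
      · have h1 : Tendsto (fun k => c (φ k) j) atTop (𝓝 (a j)) :=
          ((continuous_apply j).tendsto a).comp hφa
        filter_upwards [h1.eventually (lt_mem_nhds (show a j / 2 < a j by linarith))] with k hk
        have h2 := hb.1 j
        linarith
    obtain ⟨k, hk1, hk2⟩ := (hev.and hmem).exists
    obtain ⟨h1, h2⟩ := hcu _ hk2
    have h3 : (fun j => c (φ k) j + 1 / 2 * (b j - a j)) ∈ stdSimplex ℝ J := by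
      refine ⟨hk1, ?_⟩
      rw [Finset.sum_add_distrib, ← Finset.mul_sum, Finset.sum_sub_distrib, (hc (φ k)).2, hb.2,
        ha.2]
      ring
    have h4 : ∑ j, (c (φ k) j + 1 / 2 * (b j - a j)) • w j = u (ns (φ k)) := by
      simp only [add_smul, mul_smul, sub_smul, Finset.sum_add_distrib, ← Finset.smul_sum,
        Finset.sum_sub_distrib]
      rw [h1, hbx, hax]
      simp
    have h5 := le_mw (j₀ := j₀) h3 h4
    rw [← h2] at h5
    linarith
  rw [← hval]
  refine hlim.congr' ?_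
  filter_upwards [hmem] with k hk
  exact (hcu _ hk).2

end

end Pool.Agent.Helper57K1.FS
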