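import Pool.Agent.Helper57K1.FS.A

/-!
# Chord preserving moves of a free summand
-/

set_option autoImplicit false

namespace Pool.Agent.Helper57K1.FS

open MeasureTheory Set Filter Topology
open scoped ENNReal NNReal
open Pool.Agent.Y513.LPM (E Z mahlerLp supportLp)
open Pool.Agent.Helper57K1.LM
open Pool.Agent.Helper98.JN (lsp)

variable {n : ℕ} {p : ℝ}

/-- the family `o, R` -/
noncomputable def fam (o : E n) (R : Finset (E n)) : Option R → E n :=
  fun j => j.elim o (fun r => (r : E n))

/-- the maximal weight of `o` -/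
noncomputable def sw (o : E n) (R : Finset (E n)) (y : E n) : ℝ := mw (fam o R) none y

/-- the convex hull of `o` and `R` -/
def dom (o : E n) (R : Finset (E n)) : Set (E n) := convexHull ℝ (range (fam o R))

section
variable {o : E n} {R : Finset (E n)}

lemma le_sw {a : ℝ} (h0 : 0 ≤ a) (h1 : a ≤ 1) {q : E n}
    (hq : q ∈ convexHull ℝ (R : Set (E n))) :
    a • o + (1 - a) • q ∈ dom o R ∧ a ≤ sw o R (a • o + (1 - a) • q) := by
  have h2 : (R : Set (E n)) = range (fun r : R => (r : E n)) := by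
    rw [Subtype.range_coe_subtype]; rfl
  rw [h2, mem_hull] at hq
  obtain ⟨d, hd0, hd1, hd⟩ := hq
  set c : Option R → ℝ := fun j => j.elim a (fun r => (1 - a) * d r) with hc
  have hc0 : ∀ j, 0 ≤ c j := by
    intro j
    rcases j with _ | r
    · exact h0
    · exact mul_nonneg (by linarith) (hd0 r)
  have hc1 : ∑ j, c j = 1 := by
    rw [Fintype.sum_option]
    simp only [hc, Option.elim_none, Option.elim_some]
    rw [← Finset.mul_sum, hd1]; ring
  have hcs : ∑ j, c j • fam o R j = a • o + (1 - a) • q := by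
    rw [Fintype.sum_option]
    simp only [hc, fam, Option.elim_none, Option.elim_some, mul_smul]
    rw [← Finset.smul_sum, hd]
  refine ⟨(mem_hull _ _).2 ⟨c, hc0, hc1, hcs⟩, ?_⟩
  have h3 := le_mw (w := fam o R) (j₀ := none) (c := c) ⟨hc0, hc1⟩ hcs
  exact h3

lemma sw_spec (hR : R.Nonempty) {y : E n} (hy : y ∈ dom o R) :
    0 ≤ sw o R y ∧ sw o R y ≤ 1 ∧ ∃ q ∈ convexHull ℝ (R : Set (E n)),
      y = sw o R y • o + (1 - sw o R y) • q := by
  obtain ⟨c, ⟨hc0, hc1⟩, hcy, hcm⟩ := exists_mw (w := fam o R) (j₀ := none) hy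
  have hs : sw o R y = c none := hcm.symm
  rw [hs]
  rw [Fintype.sum_option] at hc1 hcy
  have hsum0 : 0 ≤ ∑ r : R, c (some r) := Finset.sum_nonneg fun r _ => hc0 _
  refine ⟨hc0 none, by linarith, ?_⟩
  have h2 : (R : Set (E n)) = range (fun r : R => (r : E n)) := by
    rw [Subtype.range_coe_subtype]; rfl
  have hfam : c none • o + ∑ r : R, c (some r) • (r : E n) = y := hcy
  rcases hsum0.eq_or_lt with h | h
  · obtain ⟨r, hr⟩ := hR
    refine ⟨r, subset_convexHull ℝ _ hr, ?_⟩
    have h3 : ∀ r : R, c (some r) = 0 := fun r =>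
      (Finset.sum_eq_zero_iff_of_nonneg (fun r _ => hc0 _)).1 h.symm r (Finset.mem_univ r)
    have h4 : c none = 1 := by linarith
    rw [← hfam, h4]
    simp [h3]
  · set σ := ∑ r : R, c (some r) with hσ
    refine ⟨∑ r : R, (c (some r) / σ) • (r : E n), ?_, ?_⟩
    · rw [h2, mem_hull]
      refine ⟨fun r => c (some r) / σ, fun r => div_nonneg (hc0 _) h.le, ?_, rfl⟩
      rw [← Finset.sum_div, ← hσ, div_self h.ne']
    · have h3 : 1 - c none = σ := by linarith
      rw [h3, Finset.smul_sum, ← hfam]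
      congr 1
      refine Finset.sum_congr rfl fun r _ => ?_
      rw [smul_smul, mul_div_cancel₀ _ h.ne']

variable {π : E n →ₗ[ℝ] E n}

lemma proj_hull (hRπ : ∀ r ∈ R, π (r - o) = 0) {q : E n}
    (hq : q ∈ convexHull ℝ (R : Set (E n))) : π (q - o) = 0 := by
  have h : convexHull ℝ (R : Set (E n)) ⊆ {q | π (q - o) = 0} := by
    refine convexHull_min (fun r hr => hRπ r hr) ?_
    intro x hx y hy a b _ _ hab
    have h1 : a • x + b • y - o = a • (x - o) + b • (y - o) := by
      have h2 : o = (a + b) • o := by rw [hab, one_smul]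
      calc a • x + b • y - o = a • x + b • y - (a + b) • o := by rw [← h2]
        _ = _ := by module
    simp only [mem_ofPred_eq] at hx hy ⊢
    rw [h1, map_add, map_smul, map_smul, hx, hy]
    simp
  exact h hq

/-- the sections of the body parallel to `C` -/
lemma mem_iff (hR : R.Nonempty) (hRπ : ∀ r ∈ R, π (r - o) = 0) {C : Set (E n)}
    (hC : Convex ℝ C) (ho : o ∈ C) (hCπ : ∀ c ∈ C, π (c - o) = c - o) (x : E n) :
    x ∈ convexHull ℝ (C ∪ R) ↔ x - π (x - o) ∈ dom o R ∧
      ∃ c ∈ C, π (x - o) = sw o R (x - π (x - o)) • (c - o) := by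
  constructor
  · intro hx
    rw [convexHull_union ⟨o, ho⟩ (by exact_mod_cast hR), hC.convexHull_eq, mem_convexJoin] at hx
    obtain ⟨c, hc, q, hq, a, b, ha, hb, hab, rfl⟩ := hx
    have hb' : b = 1 - a := by linarith
    subst hb'
    have h1 : a • c + (1 - a) • q - o = a • (c - o) + (1 - a) • (q - o) := by module
    have h2 : π (a • c + (1 - a) • q - o) = a • (c - o) := by
      rw [h1, map_add, map_smul, map_smul, hCπ c hc, proj_hull hRπ hq, smul_zero, add_zero]
    have h3 : a • c + (1 - a) • q - a • (c - o) = a • o + (1 - a) • q := by module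
    rw [h2, h3]
    obtain ⟨h4, h5⟩ := le_sw (o := o) ha (by linarith) hq
    refine ⟨h4, ?_⟩
    set s := sw o R (a • o + (1 - a) • q) with hs
    rcases (ha.trans h5).eq_or_lt with h6 | h6
    · refine ⟨o, ho, ?_⟩
      have h7 : a = 0 := by linarith
      rw [h7, ← h6]; simp
    · refine ⟨o + (a / s) • (c - o), ?_, ?_⟩
      · have h7 : a / s ≤ 1 := (div_le_one h6).2 h5
        have h8 := hC ho hc (a := 1 - a / s) (b := a / s) (by linarith)
          (div_nonneg ha h6.le) (by ring)
        have h9 : (1 - a / s) • o + (a / s) • c = o + (a / s) • (c - o) := by module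
        rwa [h9] at h8
      · rw [add_sub_cancel_left, smul_smul, mul_div_cancel₀ _ h6.ne']
  · rintro ⟨h1, c, hc, h2⟩
    obtain ⟨h3, h4, q, hq, h5⟩ := sw_spec hR h1
    set s := sw o R (x - π (x - o)) with hs
    have h6 : x = s • c + (1 - s) • q := by
      calc x = (x - π (x - o)) + π (x - o) := by abel
        _ = (s • o + (1 - s) • q) + s • (c - o) := by rw [← h5, h2]
        _ = _ := by module
    have hcv := convex_convexHull ℝ (C ∪ (R : Set (E n)))
    have m1 : c ∈ convexHull ℝ (C ∪ (R : Set (E n))) := subset_convexHull ℝ _ (Or.inl hc)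
    have m2 : q ∈ convexHull ℝ (C ∪ (R : Set (E n))) := convexHull_mono subset_union_right hq
    have m3 := hcv m1 m2 h3 (show (0 : ℝ) ≤ 1 - s by linarith) (by ring)
    rwa [← h6] at m3

/-- the shear of the whole body -/
noncomputable def bigβ (o : E n) (R : Finset (E n)) (π : E n →ₗ[ℝ] E n) (β : E n → ℝ) (x : E n) :
    ℝ :=
  sw o R (x - π (x - o)) * β (o + (sw o R (x - π (x - o)))⁻¹ • π (x - o))

section
variable {β : E n → ℝ} {v : E n}

lemma proj_shift (hv : π v = v) (x : E n) (s : ℝ) :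
    π (x + s • v - o) = π (x - o) + s • v := by
  have h1 : x + s • v - o = (x - o) + s • v := by abel
  rw [h1, map_add, map_smul, hv]

lemma proj_shift' (hv : π v = v) (x : E n) (s : ℝ) :
    x + s • v - π (x + s • v - o) = x - π (x - o) := by
  rw [proj_shift hv]; abel

lemma bigβ_inv (hv : π v = v) (hinv : ∀ (x : E n) (s : ℝ), β (x + s • v) = β x) (x : E n)
    (s : ℝ) : bigβ o R π β (x + s • v) = bigβ o R π β x := by
  unfold bigβ
  rw [proj_shift' hv, proj_shift hv, smul_add, smul_smul, ← add_assoc, hinv]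

lemma bigβ_val {x c : E n} (h : π (x - o) = sw o R (x - π (x - o)) • (c - o)) :
    bigβ o R π β x = sw o R (x - π (x - o)) * β c := by
  unfold bigβ
  generalize hs : sw o R (x - π (x - o)) = s at h ⊢
  rcases eq_or_ne s 0 with h0 | h0
  · rw [h0, zero_mul, zero_mul]
  · rw [h, smul_smul, inv_mul_cancel₀ h0, one_smul, add_sub_cancel]

lemma shear_hull (hR : R.Nonempty) (hRπ : ∀ r ∈ R, π (r - o) = 0) {C : Set (E n)}
    (hC : Convex ℝ C) (ho : o ∈ C) (hCπ : ∀ c ∈ C, π (c - o) = c - o)
    (hv : π v = v) {t : ℝ}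
    (hCt : Convex ℝ (shear β v t '' C)) (hot : o ∈ shear β v t '' C) :
    shear (bigβ o R π β) v t '' convexHull ℝ (C ∪ R) =
      convexHull ℝ (shear β v t '' C ∪ R) := by
  have hCtπ : ∀ c ∈ shear β v t '' C, π (c - o) = c - o := by
    rintro _ ⟨c, hc, rfl⟩
    unfold shear
    rw [proj_shift hv, hCπ c hc]; abel
  ext x
  rw [mem_iff hR hRπ hCt hot hCtπ]
  constructor
  · rintro ⟨y, hy, rfl⟩
    obtain ⟨h1, c, hc, h2⟩ := (mem_iff hR hRπ hC ho hCπ y).1 hy
    have h3 := bigβ_val (β := β) h2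
    unfold shear
    rw [proj_shift' hv, proj_shift hv]
    refine ⟨h1, c + (t * β c) • v, ⟨c, hc, rfl⟩, ?_⟩
    rw [h3]
    generalize sw o R (y - π (y - o)) = s at h2 ⊢
    rw [h2]
    module
  · rintro ⟨h1, _, ⟨c, hc, rfl⟩, h2⟩
    set s := sw o R (x - π (x - o)) with hs
    have h5 : π (x + (-(t * (s * β c))) • v - o) = s • (c - o) := by
      rw [proj_shift hv, h2]
      unfold shear
      module
    have h6 : x + (-(t * (s * β c))) • v - π (x + (-(t * (s * β c))) • v - o) =
        x - π (x - o) := proj_shift' hv x _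
    have h7 : π (x + (-(t * (s * β c))) • v - o) =
        sw o R (x + (-(t * (s * β c))) • v - π (x + (-(t * (s * β c))) • v - o)) • (c - o) := by
      rw [h6, ← hs, h5]
    refine ⟨x + (-(t * (s * β c))) • v, (mem_iff hR hRπ hC ho hCπ _).2 ⟨?_, c, hc, h7⟩, ?_⟩
    · rw [h6]; exact h1
    · unfold shear
      rw [bigβ_val h7, h6, ← hs]
      module

lemma bigβ_cont (hR : R.Nonempty) (hRπ : ∀ r ∈ R, π (r - o) = 0) {C : Set (E n)}
    (hCc : IsCompact C) (hC : Convex ℝ C) (ho : o ∈ C) (hCπ : ∀ c ∈ C, π (c - o) = c - o)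
    (hβ : Continuous β) : ContinuousOn (bigβ o R π β) (convexHull ℝ (C ∪ R)) := by
  have hπc : Continuous π := LinearMap.continuous_of_finiteDimensional π
  have hζ : Continuous fun x : E n => x - π (x - o) := by fun_prop
  have hsc : ContinuousOn (fun x : E n => sw o R (x - π (x - o))) (convexHull ℝ (C ∪ R)) := by
    refine ContinuousOn.comp (g := sw o R) (t := dom o R) (mw_cont _ _) hζ.continuousOn ?_
    intro x hx
    exact ((mem_iff hR hRπ hC ho hCπ x).1 hx).1
  obtain ⟨M, hM⟩ := hCc.exists_bound_of_continuousOn hβ.continuousOn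
  intro x hx
  by_cases h0 : sw o R (x - π (x - o)) = 0
  · -- squeeze
    have h1 : bigβ o R π β x = 0 := by unfold bigβ; rw [h0, zero_mul]
    unfold ContinuousWithinAt
    rw [h1]
    have h2 : Tendsto (fun y : E n => sw o R (y - π (y - o)) * M) (𝓝[convexHull ℝ (C ∪ R)] x)
        (𝓝 0) := by
      have h5 : Tendsto (fun y : E n => sw o R (y - π (y - o)) * M) (𝓝[convexHull ℝ (C ∪ R)] x)
        (𝓝 (sw o R (x - π (x - o)) * M)) := Tendsto.mul_const M (hsc x hx)
      rwa [h0, zero_mul] at h5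
    refine squeeze_zero_norm' ?_ h2
    filter_upwards [self_mem_nhdsWithin] with y hy
    obtain ⟨h3, c, hc, h4⟩ := (mem_iff hR hRπ hC ho hCπ y).1 hy
    rw [bigβ_val h4, norm_mul, Real.norm_of_nonneg (sw_spec hR h3).1]
    exact mul_le_mul_of_nonneg_left (hM c hc) (sw_spec hR h3).1
  · have h1 := hsc x hx
    unfold bigβ
    refine h1.mul ?_
    refine (hβ.continuousAt).comp_continuousWithinAt ?_
    refine continuousWithinAt_const.add ?_
    refine (h1.inv₀ h0).smul ?_
    have : Continuous fun y : E n => π (y - o) := by fun_prop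
    exact this.continuousWithinAt

end
end

end Pool.Agent.Helper57K1.FS
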