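import Pool.Agent.Helper57K1.FS.Def

/-!
# Substitution of marked blocks
-/

set_option autoImplicit false

namespace Pool.Agent.Helper57K1.FS

open MeasureTheory Set Filter Topology
open scoped ENNReal NNReal
open Pool.Agent.Y513.LPM (E Z mahlerLp supportLp)
open Pool.Agent.Helper57K1.LM
open Pool.Agent.Helper98.JN (lsp)

variable {n : ℕ} {p : ℝ}

/-- sets of at most `r` points in place of `S` -/
def UR (p : ℝ) (r : ℕ) (S : Finset (E n)) (o : E n) : Prop :=
  ∀ R : Finset (E n), Module.finrank ℝ (lsp (insert o (R : Set (E n)))) + r ≤ n + 2 →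
    (∀ T : Finset (E n), T.card ≤ r → o ∈ convexHull ℝ (T : Set (E n)) →
      Ok p ((T : Set (E n)) ∪ R)) → Ok p ((S : Set (E n)) ∪ R)

lemma hull_insert {o : E n} {X : Set (E n)} (ho : o ∈ convexHull ℝ X) (R : Set (E n)) :
    convexHull ℝ (X ∪ insert o R) = convexHull ℝ (X ∪ R) := by
  apply hull_replace
  · refine union_subset ?_ ?_
    · exact subset_union_left.trans (subset_convexHull ℝ _)
    · exact (subset_insert _ _).trans (subset_union_right.trans (subset_convexHull ℝ _))
  · refine union_subset (subset_union_left.trans (subset_convexHull ℝ _)) ?_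
    refine insert_subset (convexHull_mono subset_union_left ho) ?_
    exact subset_union_right.trans (subset_convexHull ℝ _)

lemma ok_insert {o : E n} {X : Set (E n)} (ho : o ∈ convexHull ℝ X) {R : Set (E n)} :
    Ok p (X ∪ insert o R) ↔ Ok p (X ∪ R) := by
  unfold Ok
  rw [hull_insert ho]

lemma mem_lsp {o : E n} {X : Set (E n)} (ho : o ∈ convexHull ℝ X) : (o, (1 : ℝ)) ∈ lsp X := by
  have h : convexHull ℝ X ⊆ {x | (x, (1 : ℝ)) ∈ lsp X} := by
    refine convexHull_min (fun x hx => Submodule.subset_span ⟨x, hx, rfl⟩) ?_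
    intro y hy z hz a b _ _ hab
    have h2 := (lsp X).add_mem ((lsp X).smul_mem a hy) ((lsp X).smul_mem b hz)
    have h3 : a • (y, (1 : ℝ)) + b • (z, (1 : ℝ)) = (a • y + b • z, (1 : ℝ)) := by
      ext1
      · rfl
      · simp [hab]
    rw [h3] at h2
    exact h2
  exact h ho

lemma UR_few (hF : FewMarked p n) {r : ℕ} {S : Finset (E n)} (hS : S.card ≤ r + 1)
    (hSr : Module.finrank ℝ (lsp (S : Set (E n))) ≤ r) {o : E n}
    (ho : o ∈ convexHull ℝ (S : Set (E n))) : UR p r S o := by
  classical
  intro R hR base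
  have h1 : Ok p ((S : Set (E n)) ∪ (insert o R : Finset (E n))) := by
    refine hF hS hSr ho (R := insert o R) ?_ ?_ ?_
    · exact Submodule.subset_span ⟨o, by simp, rfl⟩
    · rw [Finset.coe_insert]; exact hR
    · intro T hT hoT
      rw [Finset.coe_insert, ok_insert hoT]
      exact base T hT hoT
  rwa [Finset.coe_insert, ok_insert ho] at h1

lemma UR_planar (hPL : PlanarMarked p n) {S : Finset (E n)}
    (hSr : Module.finrank ℝ (lsp (S : Set (E n))) ≤ 3) {o : E n}
    (ho : o ∈ convexHull ℝ (S : Set (E n))) : UR p 3 S o := by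
  classical
  intro R hR base
  have h1 : Ok p ((S : Set (E n)) ∪ (insert o R : Finset (E n))) := by
    refine hPL hSr ho (R := insert o R) ?_ ?_ ?_
    · exact Submodule.subset_span ⟨o, by simp, rfl⟩
    · rw [Finset.coe_insert]; exact hR
    · intro T hT hoT
      rw [Finset.coe_insert, ok_insert hoT]
      exact base T hT hoT
  rwa [Finset.coe_insert, ok_insert ho] at h1

/-! ### dimensions -/

lemma lsp_union (X Y : Set (E n)) : lsp (X ∪ Y) = lsp X ⊔ lsp Y := by
  unfold lsp
  rw [image_union, Submodule.span_union]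

lemma lsp_mono {X Y : Set (E n)} (h : X ⊆ Y) : lsp X ≤ lsp Y :=
  Submodule.span_mono (image_mono h)

/-- a block whose mark is already there -/
lemma fr_step {Y X : Set (E n)} {o : E n} {d : ℕ} (hY : (o, (1 : ℝ)) ∈ lsp Y)
    (hX : (o, (1 : ℝ)) ∈ lsp X) (hd : Module.finrank ℝ (lsp X) ≤ d + 1) :
    Module.finrank ℝ (lsp (Y ∪ X)) ≤ Module.finrank ℝ (lsp Y) + d := by
  rw [lsp_union]
  have h1 := Submodule.finrank_sup_add_finrank_inf_eq (lsp Y) (lsp X)
  have h2 : 0 < Module.finrank ℝ (lsp Y ⊓ lsp X : Submodule ℝ (E n × ℝ)) := by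
    rw [Module.finrank_pos_iff_exists_ne_zero]
    refine ⟨⟨(o, (1 : ℝ)), Submodule.mem_inf.2 ⟨hY, hX⟩⟩, ?_⟩
    intro h
    have h3 : ((o, (1 : ℝ)) : E n × ℝ) = 0 := congrArg Subtype.val h
    have h4 : (1 : ℝ) = 0 := congrArg Prod.snd h3
    exact one_ne_zero h4
  omega

lemma fr_steps : ∀ (k : ℕ) (X : Fin k → Set (E n)) (d : Fin k → ℕ) (o : Fin k → E n)
    (Y : Set (E n)) (_ : ∀ i, (o i, (1 : ℝ)) ∈ lsp Y) (_ : ∀ i, (o i, (1 : ℝ)) ∈ lsp (X i))
    (_ : ∀ i, Module.finrank ℝ (lsp (X i)) ≤ d i + 1),
    Module.finrank ℝ (lsp (Y ∪ ⋃ i, X i)) ≤ Module.finrank ℝ (lsp Y) + ∑ i, d i := by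
  intro k
  induction k with
  | zero =>
    intro X d o Y _ _ _
    rw [iUnion_of_empty, union_empty]
    simp
  | succ k ih =>
    intro X d o Y hY hX hd
    rw [iUnion_succ, ← union_assoc, Fin.sum_univ_succ]
    have h1 := fr_step (hY 0) (hX 0) (hd 0)
    have h2 := ih (fun i => X i.succ) (fun i => d i.succ) (fun i => o i.succ) (Y ∪ X 0)
      (fun i => lsp_mono subset_union_left (hY i.succ)) (fun i => hX i.succ) (fun i => hd i.succ)
    omega

/-- **replacing all the blocks by sets of few points** -/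
theorem combine : ∀ (k : ℕ) (S : Fin k → Finset (E n)) (d : Fin k → ℕ) (o : Fin k → E n)
    (_ : ∀ i, o i ∈ convexHull ℝ (S i : Set (E n)))
    (_ : ∀ i, Module.finrank ℝ (lsp (S i : Set (E n))) ≤ d i + 1)
    (_ : ∀ i, UR p (d i + 1) (S i) (o i)) (R : Finset (E n))
    (_ : Module.finrank ℝ (lsp ((R : Set (E n)) ∪ range o)) + ∑ i, d i ≤ n + 1)
    (_ : ∀ T : Fin k → Finset (E n), (∀ i, (T i).card ≤ d i + 1) →
      (∀ i, o i ∈ convexHull ℝ (T i : Set (E n))) → Ok p ((⋃ i, (T i : Set (E n))) ∪ R)),
    Ok p ((⋃ i, (S i : Set (E n))) ∪ R) := by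
  classical
  intro k
  induction k with
  | zero =>
    intro S d o _ _ _ R _ base
    have h1 := base S (fun i => i.elim0) (fun i => i.elim0)
    exact h1
  | succ k ih =>
    intro S d o ho hd hUR R hR base
    rw [Fin.sum_univ_succ] at hR
    have e1 : (⋃ i, (S i : Set (E n))) ∪ (R : Set (E n)) =
        (⋃ i : Fin k, (S i.succ : Set (E n))) ∪ ((R ∪ S 0 : Finset (E n)) : Set (E n)) := by
      rw [iUnion_succ (fun i => (S i : Set (E n))), Finset.coe_union]
      ext x; simp only [mem_union]; tauto
    rw [e1]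
    refine ih (fun i => S i.succ) (fun i => d i.succ) (fun i => o i.succ) (fun i => ho i.succ)
      (fun i => hd i.succ) (fun i => hUR i.succ) (R ∪ S 0) ?_ ?_
    · have h1 := fr_step (Y := (R : Set (E n)) ∪ range o) (X := (S 0 : Set (E n))) (o := o 0)
        (d := d 0) (Submodule.subset_span ⟨o 0, Or.inr ⟨0, rfl⟩, rfl⟩) (mem_lsp (ho 0)) (hd 0)
      have h2 : ((R ∪ S 0 : Finset (E n)) : Set (E n)) ∪ range (fun i : Fin k => o i.succ) ⊆
          ((R : Set (E n)) ∪ range o) ∪ (S 0 : Set (E n)) := by
        rw [Finset.coe_union]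
        rintro x ((hx | hx) | ⟨i, rfl⟩)
        · exact Or.inl (Or.inl hx)
        · exact Or.inr hx
        · exact Or.inl (Or.inr ⟨_, rfl⟩)
      have h3 := Submodule.finrank_mono (lsp_mono h2)
      omega
    · intro T hT hoT
      set R' : Finset (E n) := R ∪ Finset.univ.biUnion T with hR'
      have hR'c : (R' : Set (E n)) = (R : Set (E n)) ∪ ⋃ i, (T i : Set (E n)) := by
        rw [hR']; push_cast; simp
      have e2 : (⋃ i : Fin k, (T i : Set (E n))) ∪ ((R ∪ S 0 : Finset (E n)) : Set (E n)) =
          (S 0 : Set (E n)) ∪ R' := by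
        rw [hR'c, Finset.coe_union]
        ext x; simp only [mem_union]; tauto
      rw [e2]
      refine hUR 0 R' ?_ ?_
      · have h1 := fr_steps k (fun i => (T i : Set (E n))) (fun i => d i.succ)
          (fun i => o i.succ) ((R : Set (E n)) ∪ range o)
          (fun i => Submodule.subset_span ⟨_, Or.inr ⟨_, rfl⟩, rfl⟩)
          (fun i => mem_lsp (hoT i)) (fun i => by
            have h2 := finrank_span_finset_le_card (R := ℝ)
              ((T i).image (fun x : E n => (x, (1 : ℝ))))
            have h3 : ((T i).image (fun x : E n => (x, (1 : ℝ)))).card ≤ (T i).card :=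
              Finset.card_image_le
            have h4 := hT i
            unfold Set.finrank at h2
            rw [Finset.coe_image] at h2
            exact h2.trans (h3.trans h4))
        have h2 : insert (o 0) (R' : Set (E n)) ⊆
            ((R : Set (E n)) ∪ range o) ∪ ⋃ i, (T i : Set (E n)) := by
          rw [hR'c]
          rintro x (hx | hx | hx)
          · exact Or.inl (Or.inr ⟨0, hx.symm⟩)
          · exact Or.inl (Or.inl hx)
          · exact Or.inr hx
        have h3 := Submodule.finrank_mono (lsp_mono h2)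
        omega
      · intro T₀ hT₀ hoT₀
        have h1 := base (Fin.cons T₀ T) (fun i => by
          refine Fin.cases ?_ (fun j => ?_) i
          · exact hT₀
          · exact hT j) (fun i => by
          refine Fin.cases ?_ (fun j => ?_) i
          · exact hoT₀
          · exact hoT j)
        have e3 : (⋃ i, ((Fin.cons T₀ T : Fin (k + 1) → Finset (E n)) i : Set (E n))) ∪
            (R : Set (E n)) = (T₀ : Set (E n)) ∪ R' := by
          rw [iUnion_succ (fun i => ((Fin.cons T₀ T : Fin (k + 1) → Finset (E n)) i :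
            Set (E n))), hR'c]
          simp only [Fin.cons_zero, Fin.cons_succ]
          ext x; simp only [mem_union]; tauto
        rwa [e3] at h1

/-- **substitution**: marked blocks in place of the points `o i` of a polytope with at most
`dim + 2` points -/
theorem subst (hF : FewMarked p n) {k D ρ : ℕ} (S : Fin k → Finset (E n)) (d : Fin k → ℕ)
    (o : Fin k → E n) (ho : ∀ i, o i ∈ convexHull ℝ (S i : Set (E n)))
    (hd : ∀ i, Module.finrank ℝ (lsp (S i : Set (E n))) ≤ d i + 1)
    (hUR : ∀ i, UR p (d i + 1) (S i) (o i))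
    (hρ : Module.finrank ℝ (lsp (range o)) = ρ) (hk : k ≤ ρ + 1) (hD : ρ + ∑ i, d i ≤ D + 1)
    {q : E n} (hq : q ∈ convexHull ℝ (range o)) {F : Finset (E n)}
    (hFS : (F : Set (E n)) = ⋃ i, (S i : Set (E n))) :
    q ∈ convexHull ℝ (F : Set (E n)) ∧ Module.finrank ℝ (lsp (F : Set (E n))) ≤ D + 1 ∧
      UR p (D + 1) F q := by
  classical
  have hconv : ∀ T : Fin k → Finset (E n), (∀ i, o i ∈ convexHull ℝ (T i : Set (E n))) →
      q ∈ convexHull ℝ (⋃ i, (T i : Set (E n))) := by
    intro T hT
    refine convexHull_min ?_ (convex_convexHull ℝ _) hq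
    rintro _ ⟨i, rfl⟩
    exact convexHull_mono (subset_iUnion _ i) (hT i)
  have hdim : ∀ T : Fin k → Finset (E n), (∀ i, o i ∈ convexHull ℝ (T i : Set (E n))) →
      (∀ i, Module.finrank ℝ (lsp (T i : Set (E n))) ≤ d i + 1) →
      Module.finrank ℝ (lsp (⋃ i, (T i : Set (E n)))) ≤ D + 1 := by
    intro T hT hTd
    have h1 := fr_steps k (fun i => (T i : Set (E n))) d o (range o)
      (fun i => Submodule.subset_span ⟨_, ⟨_, rfl⟩, rfl⟩) (fun i => mem_lsp (hT i)) hTd
    have h2 := Submodule.finrank_mono (lsp_mono (subset_union_right :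
      (⋃ i, (T i : Set (E n))) ⊆ range o ∪ ⋃ i, (T i : Set (E n))))
    omega
  refine ⟨?_, ?_, ?_⟩
  · rw [hFS]; exact hconv S ho
  · rw [hFS]; exact hdim S ho hd
  · intro R hR base
    rw [hFS]
    refine combine k S d o ho hd hUR R ?_ ?_
    · have h1 : Module.finrank ℝ (lsp ((R : Set (E n)) ∪ range o)) + 1 ≤
          Module.finrank ℝ (lsp (insert q (R : Set (E n)))) + ρ := by
        have h2 := Submodule.finrank_sup_add_finrank_inf_eq (lsp (insert q (R : Set (E n))))
          (lsp (range o))
        have h3 : 0 < Module.finrank ℝ (lsp (insert q (R : Set (E n))) ⊓ lsp (range o) :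
            Submodule ℝ (E n × ℝ)) := by
          rw [Module.finrank_pos_iff_exists_ne_zero]
          refine ⟨⟨(q, (1 : ℝ)), Submodule.mem_inf.2
            ⟨Submodule.subset_span ⟨q, Or.inl rfl, rfl⟩, mem_lsp hq⟩⟩, ?_⟩
          intro h
          have h3 : ((q, (1 : ℝ)) : E n × ℝ) = 0 := congrArg Subtype.val h
          have h4 : (1 : ℝ) = 0 := congrArg Prod.snd h3
          exact one_ne_zero h4
        have h4 : lsp ((R : Set (E n)) ∪ range o) ≤
            lsp (insert q (R : Set (E n))) ⊔ lsp (range o) := by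
          rw [lsp_union]
          exact sup_le_sup_right (lsp_mono (subset_insert _ _)) _
        have h5 := Submodule.finrank_mono h4
        omega
      omega
    · intro T hT hoT
      set T' : Finset (E n) := Finset.univ.biUnion T with hT'
      have hT'c : (T' : Set (E n)) = ⋃ i, (T i : Set (E n)) := by
        rw [hT']; push_cast; simp
      rw [← hT'c]
      have hTd : ∀ i, Module.finrank ℝ (lsp (T i : Set (E n))) ≤ d i + 1 := by
        intro i
        have h2 := finrank_span_finset_le_card (R := ℝ)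
          ((T i).image (fun x : E n => (x, (1 : ℝ))))
        have h3 : ((T i).image (fun x : E n => (x, (1 : ℝ)))).card ≤ (T i).card :=
          Finset.card_image_le
        have h4 := hT i
        unfold Set.finrank at h2
        rw [Finset.coe_image] at h2
        exact h2.trans (h3.trans h4)
      have hcard : T'.card ≤ (D + 1) + 1 := by
        have h1 : T'.card ≤ ∑ i, (T i).card := Finset.card_biUnion_le
        have h2 : ∑ i, (T i).card ≤ ∑ i, (d i + 1) := Finset.sum_le_sum fun i _ => hT i
        rw [Finset.sum_add_distrib, Finset.sum_const, Finset.card_univ, Fintype.card_fin,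
          smul_eq_mul, mul_one] at h2
        omega
      refine UR_few hF hcard ?_ ?_ R hR base
      · rw [hT'c]; exact hdim T hoT hTd
      · rw [hT'c]; exact hconv T hoT

end Pool.Agent.Helper57K1.FS
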