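import Pool.Agent.Helper98.JN.C

/-!
# Marked blocks: the inequality for joins and free sums
-/

set_option autoImplicit false

namespace Pool.Agent.Helper57K1.FS

open MeasureTheory Set Filter Topology
open scoped ENNReal NNReal
open Pool.Agent.Y513.LPM (E Z mahlerLp supportLp)
open Pool.Agent.Helper57K1.LM
open Pool.Agent.Helper98.JN (lsp)

variable {n : ℕ}

/-- the inequality of the problem for all translates of `conv X` -/
def Ok (p : ℝ) (X : Set (E n)) : Prop :=
  (interior (convexHull ℝ X)).Nonempty →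
    ∀ z : E n, minS p n ≤ mahlerLp p ((fun x => x - z) '' convexHull ℝ X)

/-- (P) chord preserving moves of a body `C` containing the mark `o`, inside `conv (C ∪ R)`,
`R` a finite set whose affine hull meets the one of `C` in `o` only. -/
def MarkedMove (p : ℝ) (n : ℕ) : Prop :=
  ∀ {C : Set (E n)} (_ : IsCompact C) (_ : Convex ℝ C) {o : E n} (_ : o ∈ C) {r : ℕ}
    (_ : Module.finrank ℝ (lsp C) ≤ r) {R : Finset (E n)} (_ : (o, (1 : ℝ)) ∈ lsp (R : Set (E n)))
    (_ : Module.finrank ℝ (lsp (R : Set (E n))) + r ≤ n + 2)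
    {β : E n → ℝ} (_ : Continuous β) {a b : E n} (_ : a ∈ C) (_ : b ∈ C) (_ : b - a ≠ 0)
    (_ : ∀ (x : E n) (s : ℝ), β (x + s • (b - a)) = β x) {t₀ t₁ : ℝ} (_ : t₀ < 0) (_ : 0 < t₁)
    (_ : Convex ℝ (shear β (b - a) t₀ '' C)) (_ : Convex ℝ (shear β (b - a) t₁ '' C))
    (_ : o ∈ shear β (b - a) t₀ '' C) (_ : o ∈ shear β (b - a) t₁ '' C)
    (_ : Ok p (shear β (b - a) t₀ '' C ∪ R)) (_ : Ok p (shear β (b - a) t₁ '' C ∪ R)),
    Ok p (C ∪ R)

/-- (F) marked blocks of at most `r + 1` points in dimension `r - 1` -/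
def FewMarked (p : ℝ) (n : ℕ) : Prop :=
  ∀ {r : ℕ} {S : Finset (E n)} (_ : S.card ≤ r + 1)
    (_ : Module.finrank ℝ (lsp (S : Set (E n))) ≤ r) {o : E n}
    (_ : o ∈ convexHull ℝ (S : Set (E n))) {R : Finset (E n)}
    (_ : (o, (1 : ℝ)) ∈ lsp (R : Set (E n)))
    (_ : Module.finrank ℝ (lsp (R : Set (E n))) + r ≤ n + 2)
    (_ : ∀ T : Finset (E n), T.card ≤ r → o ∈ convexHull ℝ (T : Set (E n)) →
      Ok p ((T : Set (E n)) ∪ R)),
    Ok p ((S : Set (E n)) ∪ R)

/-- (PL) marked planar blocks -/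
def PlanarMarked (p : ℝ) (n : ℕ) : Prop :=
  ∀ {S : Finset (E n)} (_ : Module.finrank ℝ (lsp (S : Set (E n))) ≤ 3) {o : E n}
    (_ : o ∈ convexHull ℝ (S : Set (E n))) {R : Finset (E n)}
    (_ : (o, (1 : ℝ)) ∈ lsp (R : Set (E n)))
    (_ : Module.finrank ℝ (lsp (R : Set (E n))) + 3 ≤ n + 2)
    (_ : ∀ T : Finset (E n), T.card ≤ 3 → o ∈ convexHull ℝ (T : Set (E n)) →
      Ok p ((T : Set (E n)) ∪ R)),
    Ok p ((S : Set (E n)) ∪ R)

/-- iterated joins and free sums of planar bodies and of polytopes with few vertices: `Built d S o`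
means that the set `S` is such a generating set, of dimension at most `d`, with the mark `o`. -/
inductive Built (n : ℕ) : ℕ → Set (E n) → E n → Prop
  | planar {S : Set (E n)} {o : E n} (P : AffineSubspace ℝ (E n))
      (hP : Module.finrank ℝ P.direction ≤ 2) (hS : IsCompact S) (hSP : S ⊆ P)
      (ho : o ∈ convexHull ℝ S) : Built n 2 S o
  | few {d : ℕ} {S : Set (E n)} {o : E n} (P : AffineSubspace ℝ (E n))
      (hP : Module.finrank ℝ P.direction ≤ d) (hS : S.Finite) (hc : S.ncard ≤ d + 2)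
      (hSP : S ⊆ P) (ho : o ∈ convexHull ℝ S) : Built n d S o
  | join {d d' : ℕ} {S S' : Set (E n)} {o o' q : E n} (h : Built n d S o) (h' : Built n d' S' o')
      (hq : q ∈ segment ℝ o o') : Built n (d + d' + 1) (S ∪ S') q
  | sum {d d' : ℕ} {S S' : Set (E n)} {o : E n} (h : Built n d S o) (h' : Built n d' S' o) :
      Built n (d + d') (S ∪ S') o

end Pool.Agent.Helper57K1.FS
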