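import Pool.Agent.Helper57K1.FS.Def

/-!
# Reducible polytopes
-/

set_option autoImplicit false

namespace Pool.Agent.Helper57K1.FS

open MeasureTheory Set Filter Topology
open scoped ENNReal NNReal
open Pool.Agent.Y513.LPM (E Z mahlerLp supportLp)
open Pool.Agent.Helper57K1.LM
open Pool.Agent.Helper98.JN (lsp)

/-- reducible polytopes `conv F`: affinely independent `F`, and all `F` for which a chord
preserving shear moves `conv F` in both directions to reducible polytopes. -/
inductive Red {n : ℕ} : Finset (E n) → Prop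
  | base {F : Finset (E n)}
      (h : F.card ≤ Module.finrank ℝ (lsp (F : Set (E n)))) : Red F
  | hull {F F' : Finset (E n)}
      (h : convexHull ℝ (F : Set (E n)) = convexHull ℝ (F' : Set (E n))) (hF : Red F) : Red F'
  | move {F F₀ F₁ : Finset (E n)} {β : E n → ℝ} (hβ : Continuous β) {a b : E n}
      (ha : a ∈ convexHull ℝ (F : Set (E n))) (hb : b ∈ convexHull ℝ (F : Set (E n)))
      (hab : b - a ≠ 0) (hinv : ∀ (x : E n) (s : ℝ), β (x + s • (b - a)) = β x) {t₀ t₁ : ℝ}
      (h0 : t₀ < 0) (h1 : 0 < t₁)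
      (e₀ : shear β (b - a) t₀ '' convexHull ℝ (F : Set (E n)) =
        convexHull ℝ (F₀ : Set (E n)))
      (e₁ : shear β (b - a) t₁ '' convexHull ℝ (F : Set (E n)) =
        convexHull ℝ (F₁ : Set (E n)))
      (hF₀ : Red F₀) (hF₁ : Red F₁) : Red F

/-- polytopes with at most (dimension + 2) points -/
def RedFew (n : ℕ) : Prop :=
  ∀ F : Finset (E n), F.card ≤ Module.finrank ℝ (lsp (F : Set (E n))) + 1 → Red F

/-- polygons -/
def RedPlanar (n : ℕ) : Prop :=
  ∀ F : Finset (E n), Module.finrank ℝ (lsp (F : Set (E n))) ≤ 3 → Red F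

end Pool.Agent.Helper57K1.FS
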