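import Pool.Agent.Helper57K1.FS.B
import Pool.Agent.Helper57K1.FS.D
import Pool.Agent.Helper57K1.FS.Red

/-!
# Free sums and joins of reducible polytopes are reducible
-/

set_option autoImplicit false

namespace Pool.Agent.Helper57K1.FS

open MeasureTheory Set Filter Topology
open scoped ENNReal NNReal
open Pool.Agent.Y513.LPM (E Z mahlerLp supportLp)
open Pool.Agent.Helper57K1.LM
open Pool.Agent.Helper98.JN (lsp)

variable {n : ℕ} {p : ℝ}

/-- **reducible polytopes satisfy the inequality** -/
theorem Red.ok (hp : 0 < p) {F : Finset (E n)} (h : Red F) : Ok p (F : Set (E n)) := by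
  induction h with
  | @base F h =>
    intro hint z
    refine few_set hp F ?_ hint z
    have h1 : Module.finrank ℝ (lsp (F : Set (E n))) ≤ Module.finrank ℝ (E n × ℝ) :=
      Submodule.finrank_le _
    have h2 : Module.finrank ℝ (E n × ℝ) = n + 1 := by simp
    omega
  | hull h _ ih =>
    unfold Ok at ih ⊢
    rwa [h] at ih
  | @move F F₀ F₁ β hβ a b ha hb hab hinv t₀ t₁ h0 h1 e₀ e₁ _ _ ih₀ ih₁ =>
    intro hint z
    have hc : IsCompact (convexHull ℝ (F : Set (E n))) :=
      Pool.Agent.H73R3.compact_hull F.finite_toSet.isCompact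
    have hI : ∀ t : ℝ, (interior (shear β (b - a) t '' convexHull ℝ (F : Set (E n)))).Nonempty := by
      intro t
      have h2 : interior (shear β (b - a) t '' convexHull ℝ (F : Set (E n))) =
          shear β (b - a) t '' interior (convexHull ℝ (F : Set (E n))) :=
        ((shearH hβ hinv t).image_interior _).symm
      rw [h2]
      exact hint.image _
    refine moving' hp hc (convex_convexHull ℝ _) hint hβ hab hinv h0 h1 ?_ ?_ ?_ ?_ z
    · rw [e₀]; exact convex_convexHull ℝ _
    · rw [e₁]; exact convex_convexHull ℝ _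
    · have h2 := hI t₀
      rw [e₀] at h2 ⊢
      exact ih₀ h2
    · have h2 := hI t₁
      rw [e₁] at h2 ⊢
      exact ih₁ h2

/-! ### translations -/

/-- translated finite set -/
noncomputable def tr (w : E n) (F : Finset (E n)) : Finset (E n) := by
  classical exact F.image (fun x => w + x)

lemma coe_tr (w : E n) (F : Finset (E n)) :
    ((tr w F : Finset (E n)) : Set (E n)) = (fun x => w + x) '' (F : Set (E n)) := by
  classical
  unfold tr
  rw [Finset.coe_image]

lemma card_tr (w : E n) (F : Finset (E n)) : (tr w F).card ≤ F.card := by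
  classical
  unfold tr
  exact Finset.card_image_le

lemma hull_tr (w : E n) (X : Set (E n)) :
    convexHull ℝ ((fun x => w + x) '' X) = (fun x => w + x) '' convexHull ℝ X := by
  have h1 := convexHull_vadd (𝕜 := ℝ) w X
  exact h1

lemma tr_zero (F : Finset (E n)) : tr 0 F = F := by
  classical
  rw [← Finset.coe_inj, coe_tr]
  simp

/-- the lifted translation -/
def trL (w : E n) : (E n × ℝ) ≃ₗ[ℝ] (E n × ℝ) where
  toFun x := (x.1 + x.2 • w, x.2)
  invFun x := (x.1 - x.2 • w, x.2)
  map_add' x y := by
    ext1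
    · simp only [Prod.fst_add, Prod.snd_add, add_smul]; abel
    · simp
  map_smul' c x := by
    ext1
    · simp only [Prod.smul_fst, Prod.smul_snd, smul_eq_mul, mul_smul, smul_add,
        RingHom.id_apply]
    · simp
  left_inv x := by ext1 <;> simp
  right_inv x := by ext1 <;> simp

lemma lsp_tr (w : E n) (X : Set (E n)) :
    lsp ((fun x => w + x) '' X) = (lsp X).map (trL w : (E n × ℝ) →ₗ[ℝ] (E n × ℝ)) := by
  unfold lsp
  rw [Submodule.map_span, image_image, image_image]
  congr 1
  refine image_congr fun x _ => ?_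
  ext1
  · change w + x = x + (1 : ℝ) • w
    rw [one_smul, add_comm]
  · rfl

lemma finrank_lsp_tr (w : E n) (X : Set (E n)) :
    Module.finrank ℝ (lsp ((fun x => w + x) '' X)) = Module.finrank ℝ (lsp X) := by
  rw [lsp_tr]
  exact LinearEquiv.finrank_map_eq (trL w) (lsp X)

/-! ### the lifted span -/

lemma lsp_hull' (X : Set (E n)) : lsp (convexHull ℝ X) = lsp X := by
  apply le_antisymm
  · rw [Submodule.span_le]
    rintro _ ⟨x, hx, rfl⟩
    exact mem_lsp hx
  · exact lsp_mono (subset_convexHull ℝ X)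

lemma lsp_congr {X Y : Set (E n)} (h : convexHull ℝ X = convexHull ℝ Y) : lsp X = lsp Y := by
  rw [← lsp_hull' X, h, lsp_hull']

lemma hull_union_left (X Y : Set (E n)) :
    convexHull ℝ (convexHull ℝ X ∪ Y) = convexHull ℝ (X ∪ Y) := by
  apply hull_replace
  · exact (union_subset_union_left _ (subset_convexHull ℝ X)).trans (subset_convexHull ℝ _)
  · apply union_subset
    · exact convexHull_mono subset_union_left
    · exact subset_union_right.trans (subset_convexHull ℝ _)

/-- chord preserving shears keep the lifted span -/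
lemma lsp_shear {C : Set (E n)} {β : E n → ℝ} {a b : E n} (ha : a ∈ C) (hb : b ∈ C)
    (hinv : ∀ (x : E n) (s : ℝ), β (x + s • (b - a)) = β x) (t : ℝ) :
    lsp (shear β (b - a) t '' C) = lsp C := by
  have hβ : β b = β a := by
    have := hinv a 1
    rw [one_smul, add_sub_cancel] at this
    exact this
  have key : ∀ x : E n, ((shear β (b - a) t x, (1 : ℝ)) : E n × ℝ) =
      (x, (1 : ℝ)) + (t * β x) • ((b, (1 : ℝ)) - (a, (1 : ℝ))) := by
    intro x
    unfold shear
    ext1 <;> simp
  apply le_antisymm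
  · rw [Submodule.span_le]
    rintro _ ⟨_, ⟨x, hx, rfl⟩, rfl⟩
    change ((shear β (b - a) t x, (1 : ℝ)) : E n × ℝ) ∈ lsp C
    rw [key]
    exact Submodule.add_mem _ (Submodule.subset_span ⟨x, hx, rfl⟩)
      (Submodule.smul_mem _ _ (Submodule.sub_mem _ (Submodule.subset_span ⟨b, hb, rfl⟩)
        (Submodule.subset_span ⟨a, ha, rfl⟩)))
  · rw [Submodule.span_le]
    rintro _ ⟨x, hx, rfl⟩
    have h1 : ((x, (1 : ℝ)) : E n × ℝ) = (shear β (b - a) t x, (1 : ℝ)) -
        (t * β x) • ((shear β (b - a) t b, (1 : ℝ)) - (shear β (b - a) t a, (1 : ℝ))) := by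
      rw [key x, key a, key b, hβ]
      module
    change ((x, (1 : ℝ)) : E n × ℝ) ∈ lsp (shear β (b - a) t '' C)
    rw [h1]
    exact Submodule.sub_mem _ (Submodule.subset_span ⟨_, ⟨x, hx, rfl⟩, rfl⟩)
      (Submodule.smul_mem _ _ (Submodule.sub_mem _
        (Submodule.subset_span ⟨_, ⟨b, hb, rfl⟩, rfl⟩)
        (Submodule.subset_span ⟨_, ⟨a, ha, rfl⟩, rfl⟩)))

end Pool.Agent.Helper57K1.FS
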