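import Pool.Agent.Helper57K1.FS.G
import Pool.Agent.Helper57K1.FS.C

/-!
# Free sums and joins of reducible polytopes are reducible (2)
-/

set_option autoImplicit false

namespace Pool.Agent.Helper57K1.FS

open MeasureTheory Set Filter Topology
open scoped ENNReal NNReal
open Pool.Agent.Y513.LPM (E Z mahlerLp supportLp)
open Pool.Agent.Helper57K1.LM
open Pool.Agent.Helper98.JN (lsp)

variable {n : ℕ} {p : ℝ}

lemma one_ne : ((1 : ℝ)) ≠ 0 := one_ne_zero

/-- the directions and the lifted span -/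
lemma mem_lsp_of_dir {o : E n} {X : Set (E n)} (ho : (o, (1 : ℝ)) ∈ lsp X) {y : E n}
    (hy : y ∈ dir o X) : ((y, (0 : ℝ)) : E n × ℝ) ∈ lsp X := by
  have h1 := dir_le ho
  exact h1 (Submodule.mem_sup_left ⟨y, hy, rfl⟩)

lemma dir_disj {o : E n} {X Y : Set (E n)} (hX : (o, (1 : ℝ)) ∈ lsp X)
    (hY : (o, (1 : ℝ)) ∈ lsp Y)
    (h : lsp X ⊓ lsp Y ≤ Submodule.span ℝ {((o, (1 : ℝ)) : E n × ℝ)}) :
    Disjoint (dir o X) (dir o Y) := by
  rw [Submodule.disjoint_def]
  intro y hy hy'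
  obtain ⟨c, hc⟩ := Submodule.mem_span_singleton.1
    (h (Submodule.mem_inf.2 ⟨mem_lsp_of_dir hX hy, mem_lsp_of_dir hY hy'⟩))
  have h1 : c = 0 := by
    have := congrArg Prod.snd hc
    simpa using this
  have h2 : c • o = y := congrArg Prod.fst hc
  rw [← h2, h1, zero_smul]

/-- a projection -/
lemma exists_proj {X Y : Submodule ℝ (E n)} (h : Disjoint X Y) :
    ∃ π : E n →ₗ[ℝ] E n, (∀ x ∈ X, π x = x) ∧ ∀ y ∈ Y, π y = 0 := by
  obtain ⟨Y', hY, hc⟩ := h.symm.exists_isCompl
  refine ⟨X.projection Y' hc.symm, fun x hx => ?_, fun y hy => ?_⟩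
  · exact Submodule.projection_apply_of_mem_left hc.symm hx
  · exact (Submodule.projection_apply_eq_zero_iff hc.symm).2 (hY hy)

/-- **moving a summand** -/
lemma sum_move {F F₀ F₁ R : Finset (E n)} {β : E n → ℝ} (hβ : Continuous β) {a b : E n}
    (ha : a ∈ convexHull ℝ (F : Set (E n))) (hb : b ∈ convexHull ℝ (F : Set (E n)))
    (hab : b - a ≠ 0) (hinv : ∀ (x : E n) (s : ℝ), β (x + s • (b - a)) = β x) {t₀ t₁ : ℝ}
    (h0 : t₀ < 0) (h1 : 0 < t₁)
    (e₀ : shear β (b - a) t₀ '' convexHull ℝ (F : Set (E n)) = convexHull ℝ (F₀ : Set (E n)))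
    (e₁ : shear β (b - a) t₁ '' convexHull ℝ (F : Set (E n)) = convexHull ℝ (F₁ : Set (E n)))
    {w o : E n} (ho : o ∈ convexHull ℝ (tr w F : Set (E n)))
    (hoR : o ∈ convexHull ℝ (R : Set (E n)))
    (hdis : lsp (tr w F : Set (E n)) ⊓ lsp (R : Set (E n)) ≤
      Submodule.span ℝ {((o, (1 : ℝ)) : E n × ℝ)})
    (k₀ : ∀ w' : E n, o ∈ convexHull ℝ (tr w' F₀ : Set (E n)) →
      lsp (tr w' F₀ : Set (E n)) = lsp (tr w F : Set (E n)) → Red (tr w' F₀ ∪ R))
    (k₁ : ∀ w' : E n, o ∈ convexHull ℝ (tr w' F₁ : Set (E n)) →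
      lsp (tr w' F₁ : Set (E n)) = lsp (tr w F : Set (E n)) → Red (tr w' F₁ ∪ R)) :
    Red (tr w F ∪ R) := by
  classical
  set v : E n := b - a with hv
  set C : Set (E n) := (fun x => w + x) '' convexHull ℝ (F : Set (E n)) with hC
  have hCF : convexHull ℝ (tr w F : Set (E n)) = C := by rw [coe_tr, hull_tr]
  have hCv : Convex ℝ C := by rw [← hCF]; exact convex_convexHull ℝ _
  have hCc : IsCompact C := by
    rw [← hCF]; exact Pool.Agent.H73R3.compact_hull (tr w F).finite_toSet.isCompact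
  rw [hCF] at ho
  have hlC : lsp (tr w F : Set (E n)) = lsp C := by rw [← hCF, lsp_hull']
  have hoC : (o, (1 : ℝ)) ∈ lsp C := Submodule.subset_span ⟨o, ho, rfl⟩
  have hoR' : (o, (1 : ℝ)) ∈ lsp (R : Set (E n)) := mem_lsp hoR
  obtain ⟨π, hπ1, hπ2⟩ := exists_proj (dir_disj hoC hoR' (by rw [← hlC]; exact hdis))
  have hCdir : ∀ c ∈ C, c - o ∈ dir o C := fun c hc => Submodule.subset_span ⟨c, hc, rfl⟩
  have hCπ : ∀ c ∈ C, π (c - o) = c - o := fun c hc => hπ1 _ (hCdir c hc)
  have hRπ : ∀ r ∈ R, π (r - o) = 0 := fun r hr => hπ2 _ (Submodule.subset_span ⟨r, hr, rfl⟩)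
  have haC : w + a ∈ C := ⟨a, ha, rfl⟩
  have hbC : w + b ∈ C := ⟨b, hb, rfl⟩
  have hvw : (w + b) - (w + a) = v := by rw [hv]; abel
  have hvπ : π v = v := by
    apply hπ1
    have h2 : v = (w + b - o) - (w + a - o) := by rw [hv]; abel
    rw [h2]
    exact Submodule.sub_mem _ (hCdir _ hbC) (hCdir _ haC)
  have hRne : R.Nonempty := by
    have : (R : Set (E n)).Nonempty := convexHull_nonempty_iff.1 ⟨_, hoR⟩
    exact_mod_cast this
  -- the normalised shear
  set γ : E n → ℝ := fun x => β (x - w) - β (o - w) with hγ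
  have hγc : Continuous γ := by
    have : Continuous fun x : E n => β (x - w) := hβ.comp (by fun_prop)
    exact this.sub continuous_const
  have hγinv : ∀ (x : E n) (s : ℝ), γ (x + s • v) = γ x := by
    intro x s
    simp only [hγ]
    have h2 : x + s • v - w = (x - w) + s • v := by abel
    rw [h2, hinv]
  have hγo : γ o = 0 := by simp only [hγ, sub_self]
  have hot : ∀ t : ℝ, o ∈ shear γ v t '' C := fun t => ⟨o, ho, by
    unfold shear; rw [hγo]; simp⟩
  have himg : ∀ (t : ℝ) (G : Finset (E n)),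
      shear β v t '' convexHull ℝ (F : Set (E n)) = convexHull ℝ (G : Set (E n)) →
      shear γ v t '' C = convexHull ℝ (tr (w - (t * β (o - w)) • v) G : Set (E n)) := by
    intro t G hG
    rw [coe_tr, hull_tr, ← hG, hC, image_image, image_image]
    refine image_congr fun x _ => ?_
    unfold shear
    simp only [hγ]
    have h2 : w + x - w = x := by abel
    rw [h2]
    module
  have i₀ := himg t₀ F₀ e₀
  have i₁ := himg t₁ F₁ e₁
  have hCt : ∀ (t : ℝ) (G : Finset (E n)) (w' : E n),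
      shear γ v t '' C = convexHull ℝ (tr w' G : Set (E n)) → Convex ℝ (shear γ v t '' C) := by
    intro t G w' h
    rw [h]; exact convex_convexHull ℝ _
  have hlt : ∀ (t : ℝ) (G : Finset (E n)) (w' : E n),
      shear γ v t '' C = convexHull ℝ (tr w' G : Set (E n)) →
      lsp (tr w' G : Set (E n)) = lsp (tr w F : Set (E n)) := by
    intro t G w' h
    rw [← lsp_hull', ← h, hlC]
    have h2 := lsp_shear (C := C) (β := γ) haC hbC (by rw [hvw]; exact hγinv) t
    rw [hvw] at h2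
    exact h2
  -- the shear of the sum
  have hK : convexHull ℝ ((tr w F ∪ R : Finset (E n)) : Set (E n)) = convexHull ℝ (C ∪ R) := by
    rw [Finset.coe_union, ← hCF]
    apply hull_replace
    · apply union_subset
      · exact convexHull_mono subset_union_left
      · exact subset_union_right.trans (subset_convexHull ℝ _)
    · exact (union_subset_union_left _ (subset_convexHull ℝ _)).trans (subset_convexHull ℝ _)
  have hKc : IsCompact (convexHull ℝ (C ∪ R)) :=
    Pool.Agent.H73R3.compact_hull (hCc.union R.finite_toSet.isCompact)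
  obtain ⟨B, hBc, hBinv, hBeq⟩ := exists_extension hKc hab
    (bigβ_cont (π := π) hRne hRπ hCc hCv ho hCπ hγc)
    (fun x _ s _ => bigβ_inv hvπ hγinv x s)
  have hshear : ∀ (t : ℝ) (G : Finset (E n)) (w' : E n),
      shear γ v t '' C = convexHull ℝ (tr w' G : Set (E n)) →
      shear B v t '' convexHull ℝ ((tr w F ∪ R : Finset (E n)) : Set (E n)) =
        convexHull ℝ ((tr w' G ∪ R : Finset (E n)) : Set (E n)) := by
    intro t G w' h
    have h2 : shear B v t '' convexHull ℝ (C ∪ R) =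
        shear (bigβ o R π γ) v t '' convexHull ℝ (C ∪ R) := by
      refine image_congr fun x hx => ?_
      unfold shear
      rw [hBeq hx]
    rw [hK, h2, shear_hull hRne hRπ hCv ho hCπ hvπ (hCt t G w' h) (hot t), h, Finset.coe_union]
    apply hull_replace
    · exact (union_subset_union_left _ (subset_convexHull ℝ _)).trans (subset_convexHull ℝ _)
    · apply union_subset
      · exact convexHull_mono subset_union_left
      · exact subset_union_right.trans (subset_convexHull ℝ _)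
  have haK : w + a ∈ convexHull ℝ ((tr w F ∪ R : Finset (E n)) : Set (E n)) := by
    rw [hK]; exact subset_convexHull ℝ _ (Or.inl haC)
  have hbK : w + b ∈ convexHull ℝ ((tr w F ∪ R : Finset (E n)) : Set (E n)) := by
    rw [hK]; exact subset_convexHull ℝ _ (Or.inl hbC)
  refine Red.move (β := B) hBc haK hbK (by rw [hvw]; exact hab) (by rw [hvw]; exact hBinv)
    h0 h1 (by rw [hvw]; exact hshear t₀ F₀ _ i₀) (by rw [hvw]; exact hshear t₁ F₁ _ i₁)
    (k₀ _ ?_ (hlt t₀ F₀ _ i₀)) (k₁ _ ?_ (hlt t₁ F₁ _ i₁))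
  · rw [← i₀]; exact hot t₀
  · rw [← i₁]; exact hot t₁

/-- **reducing a summand** -/
theorem sum_reduce {F : Finset (E n)} (h : Red F) : ∀ (w : E n) (R : Finset (E n)) (o : E n)
    (_ : o ∈ convexHull ℝ (tr w F : Set (E n))) (_ : o ∈ convexHull ℝ (R : Set (E n)))
    (_ : lsp (tr w F : Set (E n)) ⊓ lsp (R : Set (E n)) ≤
      Submodule.span ℝ {((o, (1 : ℝ)) : E n × ℝ)})
    (_ : ∀ T : Finset (E n), T.card ≤ Module.finrank ℝ (lsp (T : Set (E n))) →
      o ∈ convexHull ℝ (T : Set (E n)) → lsp (T : Set (E n)) = lsp (tr w F : Set (E n)) →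
      Red (T ∪ R)), Red (tr w F ∪ R) := by
  induction h with
  | @base F h =>
    intro w R o ho hoR hdis k
    refine k (tr w F) ?_ ho rfl
    have h1 := card_tr w F
    rw [coe_tr, finrank_lsp_tr]
    omega
  | @hull F F' h _ ih =>
    intro w R o ho hoR hdis k
    have h1 : convexHull ℝ (tr w F : Set (E n)) = convexHull ℝ (tr w F' : Set (E n)) := by
      rw [coe_tr, coe_tr, hull_tr, hull_tr, h]
    have h2 := lsp_congr h1
    refine Red.hull (F := tr w F ∪ R) ?_ (ih w R o (by rw [h1]; exact ho) hoR (by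
      rw [h2]; exact hdis) (by rw [h2]; exact k))
    have h3 := hull_union_left (tr w F : Set (E n)) (R : Set (E n))
    have h4 := hull_union_left (tr w F' : Set (E n)) (R : Set (E n))
    rw [Finset.coe_union, Finset.coe_union, ← h3, ← h4, h1]
  | @move F F₀ F₁ β hβ a b ha hb hab hinv t₀ t₁ h0 h1 e₀ e₁ _ _ ih₀ ih₁ =>
    intro w R o ho hoR hdis k
    refine sum_move hβ ha hb hab hinv h0 h1 e₀ e₁ ho hoR hdis ?_ ?_
    · intro w' ho' hl
      exact ih₀ w' R o ho' hoR (by rw [hl]; exact hdis) (by rw [hl]; exact k)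
    · intro w' ho' hl
      exact ih₁ w' R o ho' hoR (by rw [hl]; exact hdis) (by rw [hl]; exact k)

/-- the rank of a union -/
lemma fr_sup_inf (X Y : Set (E n)) : Module.finrank ℝ (lsp (X ∪ Y)) +
    Module.finrank ℝ (lsp X ⊓ lsp Y : Submodule ℝ (E n × ℝ)) =
    Module.finrank ℝ (lsp X) + Module.finrank ℝ (lsp Y) := by
  rw [lsp_union]
  exact Submodule.finrank_sup_add_finrank_inf_eq _ _

/-- **free sums of reducible polytopes** -/
theorem red_sum (hF : RedFew n) {F F' : Finset (E n)} (h : Red F) (h' : Red F') {o : E n}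
    (ho : o ∈ convexHull ℝ (F : Set (E n))) (ho' : o ∈ convexHull ℝ (F' : Set (E n)))
    (hdis : lsp (F : Set (E n)) ⊓ lsp (F' : Set (E n)) ≤
      Submodule.span ℝ {((o, (1 : ℝ)) : E n × ℝ)}) : Red (F ∪ F') := by
  classical
  have h1 := sum_reduce h 0 F' o (by rw [tr_zero]; exact ho) ho' (by rw [tr_zero]; exact hdis)
  rw [tr_zero] at h1
  refine h1 ?_
  intro T hT hoT hlT
  have h2 := sum_reduce h' 0 T o (by rw [tr_zero]; exact ho') hoT (by
    rw [tr_zero, hlT, inf_comm]; exact hdis)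
  rw [tr_zero, Finset.union_comm] at h2
  refine h2 ?_
  intro T' hT' hoT' hlT'
  refine hF _ ?_
  have h3 := Finset.card_union_le T' T
  have h4 := fr_sup_inf (T' : Set (E n)) (T : Set (E n))
  have h5 : Module.finrank ℝ (lsp (T' : Set (E n)) ⊓ lsp (T : Set (E n)) :
      Submodule ℝ (E n × ℝ)) ≤ 1 := by
    have h6 : lsp (T' : Set (E n)) ⊓ lsp (T : Set (E n)) ≤
        Submodule.span ℝ {((o, (1 : ℝ)) : E n × ℝ)} := by
      rw [hlT', hlT, inf_comm]; exact hdis
    refine (Submodule.finrank_mono h6).trans ?_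
    have := finrank_span_le_card (R := ℝ) ({((o, (1 : ℝ)) : E n × ℝ)} : Set (E n × ℝ))
    simpa using this
  rw [Finset.coe_union]
  omega

/-- **joins of reducible polytopes** -/
theorem red_join (hF : RedFew n) {F F' : Finset (E n)} (h : Red F) (h' : Red F')
    (hne : F.Nonempty) (hne' : F'.Nonempty)
    (hdis : lsp (F : Set (E n)) ⊓ lsp (F' : Set (E n)) = ⊥) : Red (F ∪ F') := by
  classical
  obtain ⟨a, ha⟩ := hne
  obtain ⟨b, hb⟩ := hne'
  have hal : ((a, (1 : ℝ)) : E n × ℝ) ∈ lsp (F : Set (E n)) := Submodule.subset_span ⟨a, ha, rfl⟩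
  have hbl : ((b, (1 : ℝ)) : E n × ℝ) ∈ lsp (F' : Set (E n)) :=
    Submodule.subset_span ⟨b, hb, rfl⟩
  have hbot : ∀ y : E n × ℝ, y ∈ lsp (F : Set (E n)) → y ∈ lsp (F' : Set (E n)) → y = 0 := by
    intro y hy hy'
    have : y ∈ lsp (F : Set (E n)) ⊓ lsp (F' : Set (E n)) := Submodule.mem_inf.2 ⟨hy, hy'⟩
    rw [hdis] at this
    exact (Submodule.mem_bot ℝ).1 this
  have hb0 : ((b, (1 : ℝ)) : E n × ℝ) ≠ 0 := by
    intro h0
    exact one_ne_zero (congrArg Prod.snd h0 : (1 : ℝ) = 0)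
  have ha0 : ((a, (1 : ℝ)) : E n × ℝ) ≠ 0 := by
    intro h0
    exact one_ne_zero (congrArg Prod.snd h0 : (1 : ℝ) = 0)
  set G : Finset (E n) := {a, b} with hG
  have hlG : lsp (G : Set (E n)) = Submodule.span ℝ {((a, (1 : ℝ)) : E n × ℝ)} ⊔
      Submodule.span ℝ {((b, (1 : ℝ)) : E n × ℝ)} := by
    rw [hG, Finset.coe_pair, ← Submodule.span_union]
    unfold lsp
    rw [image_pair]
    rfl
  have hGinf : lsp (F : Set (E n)) ⊓ Submodule.span ℝ {((b, (1 : ℝ)) : E n × ℝ)} = ⊥ := by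
    rw [eq_bot_iff]
    rintro y ⟨hy, hy'⟩
    obtain ⟨c, rfl⟩ := Submodule.mem_span_singleton.1 hy'
    exact (Submodule.mem_bot ℝ).2 (hbot _ hy (Submodule.smul_mem _ _ hbl))
  have hfa : Module.finrank ℝ (Submodule.span ℝ {((a, (1 : ℝ)) : E n × ℝ)}) = 1 :=
    finrank_span_singleton ha0
  have hfb : Module.finrank ℝ (Submodule.span ℝ {((b, (1 : ℝ)) : E n × ℝ)}) = 1 :=
    finrank_span_singleton hb0
  have hGred : Red G := by
    refine Red.base ?_
    have h1 : G.card ≤ 2 := Finset.card_le_two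
    have h2 := Submodule.finrank_sup_add_finrank_inf_eq
      (Submodule.span ℝ {((a, (1 : ℝ)) : E n × ℝ)}) (Submodule.span ℝ {((b, (1 : ℝ)) : E n × ℝ)})
    have h3 : Submodule.span ℝ {((a, (1 : ℝ)) : E n × ℝ)} ⊓
        Submodule.span ℝ {((b, (1 : ℝ)) : E n × ℝ)} = ⊥ := by
      rw [eq_bot_iff, ← hGinf]
      refine inf_le_inf_right _ ?_
      rw [Submodule.span_singleton_le_iff_mem]
      exact hal
    rw [h3, finrank_bot, hfa, hfb, ← hlG] at h2
    omega
  -- first sum
  have haG : a ∈ convexHull ℝ (G : Set (E n)) := subset_convexHull ℝ _ (by simp [hG])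
  have hbG : b ∈ convexHull ℝ (G : Set (E n)) := subset_convexHull ℝ _ (by simp [hG])
  have s1 : Red (F ∪ G) := by
    refine red_sum hF h hGred (subset_convexHull ℝ _ ha) haG ?_
    rw [hlG]
    rintro y ⟨hy, hy'⟩
    obtain ⟨u, hu, z, hz, rfl⟩ := Submodule.mem_sup.1 hy'
    obtain ⟨c, rfl⟩ := Submodule.mem_span_singleton.1 hu
    have h1 : z ∈ lsp (F : Set (E n)) ⊓ Submodule.span ℝ {((b, (1 : ℝ)) : E n × ℝ)} := by
      refine Submodule.mem_inf.2 ⟨?_, hz⟩
      have h2 := Submodule.sub_mem _ hy (Submodule.smul_mem _ c hal)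
      rwa [add_sub_cancel_left] at h2
    rw [hGinf, Submodule.mem_bot] at h1
    rw [h1, add_zero]
    exact hu
  -- second sum
  have s2 : Red ((F ∪ G) ∪ F') := by
    refine red_sum hF s1 h' (o := b) ?_ (subset_convexHull ℝ _ hb) ?_
    · rw [Finset.coe_union]
      exact convexHull_mono subset_union_right hbG
    · rw [Finset.coe_union, lsp_union, hlG]
      rintro y ⟨hy, hy'⟩
      obtain ⟨u, hu, z, hz, rfl⟩ := Submodule.mem_sup.1 hy
      obtain ⟨z₁, hz₁, z₂, hz₂, rfl⟩ := Submodule.mem_sup.1 hz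
      obtain ⟨c, rfl⟩ := Submodule.mem_span_singleton.1 hz₂
      have h1 : u + z₁ ∈ lsp (F : Set (E n)) := by
        refine Submodule.add_mem _ hu ?_
        obtain ⟨c', rfl⟩ := Submodule.mem_span_singleton.1 hz₁
        exact Submodule.smul_mem _ _ hal
      have h2 : u + z₁ ∈ lsp (F' : Set (E n)) := by
        have h3 := Submodule.sub_mem _ hy' (Submodule.smul_mem _ c hbl)
        have h4 : u + (z₁ + c • ((b, (1 : ℝ)) : E n × ℝ)) - c • ((b, (1 : ℝ)) : E n × ℝ) =
            u + z₁ := by abel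
        rwa [h4] at h3
      have h5 := hbot _ h1 h2
      have h6 : u + (z₁ + c • ((b, (1 : ℝ)) : E n × ℝ)) = c • ((b, (1 : ℝ)) : E n × ℝ) := by
        rw [← add_assoc, h5, zero_add]
      rw [h6]
      exact hz₂
  have h7 : (F ∪ G) ∪ F' = F ∪ F' := by
    ext x
    simp only [hG, Finset.mem_union, Finset.mem_insert, Finset.mem_singleton]
    constructor
    · rintro ((h | h | h) | h)
      · exact Or.inl h
      · rw [h]; exact Or.inl ha
      · rw [h]; exact Or.inr hb
      · exact Or.inr h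
    · rintro (h | h)
      · exact Or.inl (Or.inl h)
      · exact Or.inr h
  rwa [h7] at s2

end Pool.Agent.Helper57K1.FS
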